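import Pool.Agent.Q74.CE.Erg

set_option autoImplicit false

namespace Pool.Agent.Q74.CE

open Finset Filter Topology MeasureTheory

variable {X : Type} [MeasurableSpace X] {m : Measure X} [IsProbabilityMeasure m] {T : X → X}

/-- The maximal ergodic inequality for one map. -/
theorem maximal (hT : MeasurePreserving T m m) (F : X → ℝ) (hFm : Measurable F) (hF : Integrable F m)
    (hF0 : ∀ x, 0 ≤ F x) {δ : ℝ} (hδ : 0 < δ) :
    m {x | ∃ n : ℕ, n * δ < ∑ j ∈ range n, F (T^[j] x)} ≤ ENNReal.ofReal ((∫ x, F x ∂m) / δ) := by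
  have h := Pool.Agent.H563R3.EA.maximal (μ := m) (J := Unit) (τ := fun _ => T) (fun _ => hT) F hFm hF hF0 δ hδ
  have e : ∀ (j : ℕ) (x : X), (Pool.Agent.H563R3.EA.TT (fun _ : Unit => T) ^ j) F x = F (T^[j] x) := by
    intro j
    induction j with
    | zero => intro x; rfl
    | succ j ih =>
      intro x
      rw [Pool.Agent.H563R3.EA.TT_pow_succ, Pool.Agent.H563R3.EA.TT_apply]
      simp only [Fintype.card_unit, Nat.cast_one, inv_one, one_mul, univ_unique, sum_singleton]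
      rw [ih, ← Function.iterate_succ_apply]
  simp only [e] at h
  exact h

/-- the truncated function -/
noncomputable def tr (f : X → ℝ) (M : ℕ) (x : X) : ℝ := max (-(M : ℝ)) (min M (f x))

omit [MeasurableSpace X] in
theorem tr_abs (f : X → ℝ) (M : ℕ) (x : X) : |tr f M x| ≤ M := by
  rw [abs_le]
  exact ⟨le_max_left _ _, max_le (by have : (0 : ℝ) ≤ M := Nat.cast_nonneg M
                                     linarith) (min_le_left _ _)⟩

omit [MeasurableSpace X] in
theorem tr_dist (f : X → ℝ) (M : ℕ) (x : X) : |f x - tr f M x| ≤ |f x| := by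
  unfold tr
  have hM : (0 : ℝ) ≤ M := Nat.cast_nonneg M
  rcases le_total (f x) M with h1 | h1
  · rw [min_eq_right h1]
    rcases le_total (-(M : ℝ)) (f x) with h2 | h2
    · rw [max_eq_right h2, sub_self, abs_zero]; exact abs_nonneg _
    · rw [max_eq_left h2, abs_of_nonpos (by linarith), abs_of_nonpos (by linarith)]; linarith
  · rw [min_eq_left h1, max_eq_right (by linarith), abs_of_nonneg (by linarith), abs_of_nonneg (by linarith)]
    linarith

omit [MeasurableSpace X] in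
theorem tr_eq (f : X → ℝ) (x : X) {M : ℕ} (h : |f x| ≤ M) : tr f M x = f x := by
  rw [abs_le] at h
  unfold tr
  rw [min_eq_right h.2, max_eq_right h.1]

theorem tr_meas {f : X → ℝ} (hf : Measurable f) (M : ℕ) : Measurable (tr f M) :=
  Measurable.max measurable_const (Measurable.min measurable_const hf)

theorem tr_int {f : X → ℝ} (hfm : Measurable f) (hf : Integrable f m) :
    Tendsto (fun M : ℕ => ∫ x, |f x - tr f M x| ∂m) atTop (𝓝 0) := by
  have h2 : Tendsto (fun M : ℕ => ∫ x, |f x - tr f M x| ∂m) atTop (𝓝 (∫ _y, (0 : ℝ) ∂m)) := by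
    apply tendsto_integral_of_dominated_convergence (fun x => |f x|)
    · exact fun M => ((hfm.sub (tr_meas hfm M)).abs).aestronglyMeasurable
    · exact hf.abs
    · intro M
      filter_upwards with x
      rw [Real.norm_eq_abs, abs_abs]
      exact tr_dist f M x
    · filter_upwards with x
      obtain ⟨M₀, hM₀⟩ := exists_nat_ge |f x|
      refine tendsto_const_nhds.congr' ?_
      filter_upwards [eventually_ge_atTop M₀] with M hM
      have : |f x| ≤ M := hM₀.trans (by exact_mod_cast hM)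
      rw [tr_eq f x this, sub_self, abs_zero]
  simpa using h2

theorem d_int {f : X → ℝ} (hfm : Measurable f) (hf : Integrable f m) (M : ℕ) :
    Integrable (fun x => |f x - tr f M x|) m := by
  refine Integrable.mono' hf.abs ((hfm.sub (tr_meas hfm M)).abs).aestronglyMeasurable ?_
  filter_upwards with x
  rw [Real.norm_eq_abs, abs_abs]
  exact tr_dist f M x

/-- Measure zero by approximation. -/
theorem null_of {E : Set X} {a : ℕ → ℝ} (h : ∀ M, m E ≤ ENNReal.ofReal (a M)) (ha : Tendsto a atTop (𝓝 0)) :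
    m E = 0 := by
  apply le_antisymm _ zero_le
  have h4 : Tendsto (fun M : ℕ => ENNReal.ofReal (a M)) atTop (𝓝 0) := by
    have h5 := ENNReal.tendsto_ofReal ha
    simpa using h5
  exact ge_of_tendsto' h4 h

theorem meas_rep {f : X → ℝ} (hT : MeasurePreserving T m m) (hf : Integrable f m) : ∃ g : X → ℝ, Measurable g ∧
    Integrable g m ∧ f =ᵐ[m] g ∧ ∀ᵐ x ∂m, ∀ n : ℕ, f (T^[n] x) = g (T^[n] x) := by
  obtain ⟨g, hg, hfg⟩ := hf.1
  refine ⟨g, hg.measurable, hf.congr hfg, hfg, ?_⟩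
  rw [ae_all_iff]
  intro n
  exact (hT.iterate n).quasiMeasurePreserving.ae_eq_comp hfg

omit [MeasurableSpace X] in
theorem sum_shift_le {b : ℕ → ℝ} (hb : ∀ n, 0 ≤ b n) {δ : ℝ} (hδ : 0 ≤ δ) {N : ℕ} (hN : 1 ≤ N)
    (h : ∑ j ∈ range (N + 1), b j ≤ (N + 1 : ℕ) * δ) : ∑ n ∈ Icc 1 N, b n ≤ 2 * δ * N := by
  have h3 : ∑ n ∈ Icc 1 N, b n ≤ ∑ k ∈ range (N + 1), b k := by
    apply sum_le_sum_of_subset_of_nonneg
    · intro n hn
      rw [mem_Icc] at hn
      rw [mem_range]
      omega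
    · intro n _ _
      exact hb n
  have h4 : (1 : ℝ) ≤ N := by exact_mod_cast hN
  push_cast at h
  nlinarith

omit [MeasurableSpace X] in
theorem sum_rs (a : ℕ → ℝ) (N : ℕ) : ∑ k ∈ range N, a (k + 1) = ∑ n ∈ Icc 1 N, a n := by
  induction N with
  | zero => simp
  | succ N ih => rw [sum_range_succ, sum_Icc_succ_top (by omega), ih]

/-- Integrable functions: almost every orbit is orthogonal to the weights. -/
theorem l1_ergodic {W : Set (ℕ → ℝ)} (hW : Flat W) (hT : MeasurePreserving T m m) {f : X → ℝ}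
    (hf : Integrable f m) :
    ∀ᵐ x ∂m, ∀ ε : ℝ, 0 < ε → ∃ N₀ : ℕ, ∀ w ∈ W, ∀ N ≥ N₀,
      |∑ n ∈ Icc 1 N, w n * f (T^[n] x)| ≤ ε * N := by
  obtain ⟨g, hgm, hgi, -, hfg⟩ := meas_rep hT hf
  have h1 : ∀ M : ℕ, ∀ᵐ x ∂m, ∀ ε : ℝ, 0 < ε → ∃ N₀ : ℕ, ∀ w ∈ W, ∀ N ≥ N₀,
      |∑ n ∈ Icc 1 N, w n * tr g M (T^[n] x)| ≤ ε * N := fun M =>
    bdd_ergodic hW hT (tr_meas hgm M) (tr_abs g M)
  rw [← ae_all_iff] at h1
  have h2 : ∀ k : ℕ, ∀ᵐ x ∂m, ∃ N₀ : ℕ, ∀ w ∈ W, ∀ N ≥ N₀,
      |∑ n ∈ Icc 1 N, w n * g (T^[n] x)| ≤ 1 / ((k : ℝ) + 1) * N := by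
    intro k
    set ε : ℝ := 1 / ((k : ℝ) + 1) with hε
    have hε0 : 0 < ε := by positivity
    rw [ae_iff]
    refine null_of (a := fun M => (∫ x, |g x - tr g M x| ∂m) / (ε / 4)) (fun M => ?_) ?_
    · refine le_trans ?_ (maximal hT (fun x => |g x - tr g M x|) ((hgm.sub (tr_meas hgm M)).abs)
        (d_int hgm hgi M) (fun x => abs_nonneg _) (show 0 < ε / 4 by positivity))
      apply measure_mono_ae
      filter_upwards [h1] with x hx hbad
      by_contra hcon
      apply hbad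
      have hcon' : ∀ n : ℕ, ∑ j ∈ range n, |g (T^[j] x) - tr g M (T^[j] x)| ≤ n * (ε / 4) := by
        intro n
        by_contra h3
        exact hcon ⟨n, not_le.1 h3⟩
      obtain ⟨N₀, h3⟩ := hx M (ε / 2) (by positivity)
      refine ⟨max N₀ 1, fun w hw N hN => ?_⟩
      have hN1 : 1 ≤ N := (le_max_right _ _).trans hN
      have h4 := h3 w hw N ((le_max_left _ _).trans hN)
      have h5 := sum_shift_le (b := fun j => |g (T^[j] x) - tr g M (T^[j] x)|) (fun n => abs_nonneg _)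
        (show 0 ≤ ε / 4 by positivity) hN1 (hcon' (N + 1))
      have h6 : ∑ n ∈ Icc 1 N, w n * g (T^[n] x) = ∑ n ∈ Icc 1 N, w n * tr g M (T^[n] x) +
          ∑ n ∈ Icc 1 N, w n * (g (T^[n] x) - tr g M (T^[n] x)) := by
        rw [← sum_add_distrib]
        exact sum_congr rfl fun n _ => by ring
      have h7 : |∑ n ∈ Icc 1 N, w n * (g (T^[n] x) - tr g M (T^[n] x))| ≤
          ∑ n ∈ Icc 1 N, |g (T^[n] x) - tr g M (T^[n] x)| := by
        refine (abs_sum_le_sum_abs _ _).trans (sum_le_sum fun n _ => ?_)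
        rw [abs_mul]
        calc |w n| * |g (T^[n] x) - tr g M (T^[n] x)| ≤ 1 * |g (T^[n] x) - tr g M (T^[n] x)| :=
              mul_le_mul_of_nonneg_right (hW.bdd w hw n) (abs_nonneg _)
          _ = _ := one_mul _
      rw [h6]
      refine (abs_add_le _ _).trans ?_
      linarith
    · have := (tr_int hgm hgi).div_const (ε / 4)
      rwa [zero_div] at this
  rw [← ae_all_iff] at h2
  filter_upwards [h2, hfg] with x hx hx2
  intro ε hε
  obtain ⟨k, hk⟩ := exists_nat_one_div_lt hε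
  obtain ⟨N₀, h3⟩ := hx k
  refine ⟨N₀, fun w hw N hN => ?_⟩
  have h4 : ∑ n ∈ Icc 1 N, w n * f (T^[n] x) = ∑ n ∈ Icc 1 N, w n * g (T^[n] x) :=
    sum_congr rfl fun n _ => by rw [hx2 n]
  rw [h4]
  refine (h3 w hw N hN).trans ?_
  exact mul_le_mul_of_nonneg_right hk.le (Nat.cast_nonneg N)

/-- The pointwise ergodic theorem for integrable functions. -/
theorem l1_birkhoff (hT : MeasurePreserving T m m) {f : X → ℝ} (hf : Integrable f m) :
    ∀ᵐ x ∂m, Tendsto (fun N : ℕ => (∑ n ∈ Icc 1 N, f (T^[n] x)) / N) atTop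
      (𝓝 ((m[f | MeasurableSpace.invariants T]) x)) := by
  obtain ⟨g, hgm, hgi, hfg0, hfg⟩ := meas_rep hT hf
  have hle := MeasurableSpace.invariants_le T
  have hcong : (m[f | MeasurableSpace.invariants T]) =ᵐ[m] (m[g | MeasurableSpace.invariants T]) :=
    condExp_congr_ae hfg0
  set E : (X → ℝ) → X → ℝ := fun φ => m[φ | MeasurableSpace.invariants T] with hE
  have h1 : ∀ M : ℕ, ∀ᵐ x ∂m, Tendsto (fun n : ℕ => (n : ℝ)⁻¹ * ∑ k ∈ range n, tr g M (T^[k] x)) atTop
      (𝓝 (E (tr g M) x)) := fun M =>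
    Pool.Agent.H165R3.BPE.birkhoff hT (tr g M) (tr_meas hgm M) M (tr_abs g M)
  have htri : ∀ M, Integrable (tr g M) m := fun M =>
    Integrable.of_bound (tr_meas hgm M).aestronglyMeasurable (M : ℝ) (Eventually.of_forall (tr_abs g M))
  have h1' : ∀ M : ℕ, ∀ᵐ x ∂m, |E g x - E (tr g M) x| ≤ E (fun x => |g x - tr g M x|) x := by
    intro M
    have h2 : E (fun x => g x - tr g M x) =ᵐ[m] fun x => E g x - E (tr g M) x := condExp_sub hgi (htri M) _
    have h3 : E (fun x => g x - tr g M x) ≤ᵐ[m] E (fun x => |g x - tr g M x|) :=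
      condExp_mono (hgi.sub (htri M)) (d_int hgm hgi M) (Eventually.of_forall fun x => le_abs_self _)
    have h4 : E (fun x => -(|g x - tr g M x|)) ≤ᵐ[m] E (fun x => g x - tr g M x) :=
      condExp_mono (d_int hgm hgi M).neg (hgi.sub (htri M)) (Eventually.of_forall fun x => neg_abs_le _)
    have h5 : E (fun x => -(|g x - tr g M x|)) =ᵐ[m] fun x => -E (fun x => |g x - tr g M x|) x :=
      condExp_neg _ _
    filter_upwards [h2, h3, h4, h5] with x a b c d
    rw [a] at b c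
    rw [d] at c
    exact abs_le.2 ⟨c, b⟩
  rw [← ae_all_iff] at h1 h1'
  have h2 : ∀ k : ℕ, ∀ᵐ x ∂m, ∃ N₀ : ℕ, ∀ N ≥ N₀,
      |(∑ n ∈ Icc 1 N, g (T^[n] x)) / N - E g x| ≤ 1 / ((k : ℝ) + 1) := by
    intro k
    set ε : ℝ := 1 / ((k : ℝ) + 1) with hε
    have hε0 : 0 < ε := by positivity
    rw [ae_iff]
    refine null_of (a := fun M => (∫ x, |g x - tr g M x| ∂m) / (ε / 8) + (∫ x, |g x - tr g M x| ∂m) / (ε / 4)) (fun M => ?_) ?_
    · have hnn : 0 ≤ ∫ x, |g x - tr g M x| ∂m := integral_nonneg fun x => abs_nonneg _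
      rw [ENNReal.ofReal_add (by positivity) (by positivity)]
      have hmk : m {x | ε / 4 ≤ E (fun x => |g x - tr g M x|) x} ≤
          ENNReal.ofReal ((∫ x, |g x - tr g M x| ∂m) / (ε / 4)) := by
        have h5 : 0 ≤ᵐ[m] E (fun x => |g x - tr g M x|) :=
          condExp_nonneg (Eventually.of_forall (fun x => abs_nonneg _))
        have h6 := mul_meas_ge_le_integral_of_nonneg h5 integrable_condExp (ε / 4)
        rw [hE, integral_condExp hle] at h6
        rw [← ofReal_measureReal (measure_ne_top _ _)]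
        apply ENNReal.ofReal_le_ofReal
        rw [le_div_iff₀ (by positivity), mul_comm]
        exact h6
      refine le_trans ?_ (add_le_add (maximal hT (fun x => |g x - tr g M x|) ((hgm.sub (tr_meas hgm M)).abs)
        (d_int hgm hgi M) (fun x => abs_nonneg _) (show 0 < ε / 8 by positivity)) hmk)
      refine le_trans ?_ (measure_union_le _ _)
      apply measure_mono_ae
      filter_upwards [h1, h1'] with x hx hx' hbad
      by_contra hcon
      apply hbad
      have hcon1 : ∀ n : ℕ, ∑ j ∈ range n, |g (T^[j] x) - tr g M (T^[j] x)| ≤ n * (ε / 8) := by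
        intro n
        by_contra h3
        exact hcon (Or.inl ⟨n, not_le.1 h3⟩)
      have hcon2 : E (fun x => |g x - tr g M x|) x < ε / 4 := by
        by_contra h3
        exact hcon (Or.inr (not_lt.1 h3))
      have h3 : Tendsto (fun N : ℕ => (∑ n ∈ Icc 1 N, tr g M (T^[n] x)) / N) atTop (𝓝 (E (tr g M) x)) := by
        have h4 := (tendsto_add_atTop_iff_nat 1).2 (hx M)
        have h5 : Tendsto (fun N : ℕ => (1 : ℝ) / N) atTop (𝓝 0) := tendsto_one_div_atTop_nhds_zero_nat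
        have h6 : Tendsto (fun N : ℕ => (((N + 1 : ℕ) : ℝ)⁻¹ * ∑ k ∈ range (N + 1), tr g M (T^[k] x)) * (1 + 1 / N)
            - tr g M x * (1 / N)) atTop (𝓝 (E (tr g M) x * (1 + 0) - tr g M x * 0)) :=
          (h4.mul (h5.const_add 1)).sub (h5.const_mul _)
        rw [add_zero, mul_one, mul_zero, sub_zero] at h6
        refine h6.congr' ?_
        filter_upwards [eventually_ge_atTop 1] with N hN
        have hN0 : (N : ℝ) ≠ 0 := by exact_mod_cast (by omega : N ≠ 0)
        have e1 : ∑ k ∈ range (N + 1), tr g M (T^[k] x) = tr g M x + ∑ n ∈ Icc 1 N, tr g M (T^[n] x) := by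
          rw [sum_range_succ', add_comm, Function.iterate_zero, id,
            sum_rs (fun n => tr g M (T^[n] x)) N]
        rw [e1]
        push_cast
        field_simp
        ring
      obtain ⟨N₀, h4⟩ := Metric.tendsto_atTop.1 h3 (ε / 4) (by positivity)
      refine ⟨max N₀ 1, fun N hN => ?_⟩
      have hN1 : 1 ≤ N := (le_max_right _ _).trans hN
      have hN0 : (0 : ℝ) < N := by exact_mod_cast hN1
      have h5 := h4 N ((le_max_left _ _).trans hN)
      rw [Real.dist_eq] at h5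
      have h6 := sum_shift_le (b := fun j => |g (T^[j] x) - tr g M (T^[j] x)|) (fun n => abs_nonneg _)
        (show 0 ≤ ε / 8 by positivity) hN1 (hcon1 (N + 1))
      have h7 : |(∑ n ∈ Icc 1 N, g (T^[n] x)) / N - (∑ n ∈ Icc 1 N, tr g M (T^[n] x)) / N| ≤ ε / 4 := by
        rw [← sub_div, ← sum_sub_distrib, abs_div, abs_of_pos hN0, div_le_iff₀ hN0]
        refine (abs_sum_le_sum_abs _ _).trans (h6.trans (le_of_eq ?_))
        ring
      have h8 := hx' M
      have h9 : (∑ n ∈ Icc 1 N, g (T^[n] x)) / N - E g x =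
          ((∑ n ∈ Icc 1 N, g (T^[n] x)) / N - (∑ n ∈ Icc 1 N, tr g M (T^[n] x)) / N) +
          ((∑ n ∈ Icc 1 N, tr g M (T^[n] x)) / N - E (tr g M) x) - (E g x - E (tr g M) x) := by ring
      rw [h9]
      have h10 := abs_sub (((∑ n ∈ Icc 1 N, g (T^[n] x)) / N - (∑ n ∈ Icc 1 N, tr g M (T^[n] x)) / N) +
          ((∑ n ∈ Icc 1 N, tr g M (T^[n] x)) / N - E (tr g M) x)) (E g x - E (tr g M) x)
      have h11 := abs_add_le ((∑ n ∈ Icc 1 N, g (T^[n] x)) / N - (∑ n ∈ Icc 1 N, tr g M (T^[n] x)) / N)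
          ((∑ n ∈ Icc 1 N, tr g M (T^[n] x)) / N - E (tr g M) x)
      linarith
    · have h3 := ((tr_int hgm hgi).div_const (ε / 8)).add ((tr_int hgm hgi).div_const (ε / 4))
      rw [zero_div, zero_div, add_zero] at h3
      exact h3
  rw [← ae_all_iff] at h2
  filter_upwards [h2, hfg, hcong] with x hx hx2 hx3
  rw [hx3, Metric.tendsto_atTop]
  intro ε hε
  obtain ⟨k, hk⟩ := exists_nat_one_div_lt hε
  obtain ⟨N₀, h3⟩ := hx k
  refine ⟨N₀, fun N hN => ?_⟩
  rw [Real.dist_eq]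
  have h4 : ∑ n ∈ Icc 1 N, f (T^[n] x) = ∑ n ∈ Icc 1 N, g (T^[n] x) :=
    sum_congr rfl fun n _ => by rw [hx2 n]
  rw [h4]
  exact (h3 N hN).trans_lt hk

end Pool.Agent.Q74.CE
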