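import Pool.Agent.Q74.CE.Cyc
import Pool.Agent.Q74.CE.Erg2

set_option autoImplicit false

/-! The cycles of the `3x+1` map on the integers and the pointwise ergodic theorem. Every invariant set
(the basin of attraction of a cycle, for example) is a universally good sequence for the pointwise
ergodic theorem in `L¹`, with the same limit as for the sequence of all integers and uniformly in the
invariant set. So a further cycle would attract a positive proportion of the visit times of almost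
every orbit of every measure preserving system to every set of positive measure. -/

namespace Pool.Agent.Results.MP_edb5be_nt.BasinsAlongOrbits

open Finset Filter Topology MeasureTheory

/-- the `3x+1` map on the integers -/
def T (x : ℤ) : ℤ := if x % 2 = 0 then x / 2 else (3 * x + 1) / 2

/-- `S` is invariant: `x ∈ S` if and only if `T x ∈ S`. -/
def Invariant (S : Set ℤ) : Prop := ∀ x : ℤ, x ∈ S ↔ T x ∈ S

/-- `Z` is a cycle of `T`. -/
def IsCycle (Z : Finset ℤ) : Prop :=
  ∃ (x : ℤ) (p : ℕ), 1 ≤ p ∧ T^[p] x = x ∧ Z = (Finset.range p).image fun i => T^[i] x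

/-- the five known cycles -/
def known : Set (Finset ℤ) :=
  {{1, 2}, {0}, {-1}, {-5, -7, -10}, {-17, -25, -37, -55, -82, -41, -61, -91, -136, -68, -34}}

/-- The trajectory of `x` enters a cycle which is not one of the five known ones. -/
def Unknown (x : ℤ) : Prop := ∃ Z : Finset ℤ, IsCycle Z ∧ Z ∉ known ∧ ∃ k : ℕ, T^[k] x ∈ Z

/-- Among the integers of sign `s` the set `S` has natural density `δ`. -/
def HasDensity (s : ℤ) (S : Set ℤ) (δ : ℝ) : Prop :=
  Tendsto (fun N : ℕ => ({n : ℤ | 0 < s * n ∧ s * n ≤ N ∧ n ∈ S}.ncard : ℝ) / N) atTop (𝓝 δ)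

/-- the trajectories which enter unknown cycles form an invariant set -/
theorem unknown_inv : Invariant {x | Unknown x} := by
  intro x
  constructor
  · rintro ⟨Z, hZ, hk, k, hx⟩
    refine ⟨Z, hZ, hk, k, ?_⟩
    rw [← Function.iterate_succ_apply, Function.iterate_succ_apply']
    obtain ⟨y, p, hp, hy, rfl⟩ := hZ
    rw [mem_image] at hx ⊢
    obtain ⟨i, hi, hi2⟩ := hx
    rw [mem_range] at hi
    rw [← hi2, ← Function.iterate_succ_apply' T i y]
    rcases Nat.lt_or_ge (i + 1) p with h | h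
    · exact ⟨i + 1, by rwa [mem_range], rfl⟩
    · have : i + 1 = p := by omega
      exact ⟨0, by rw [mem_range]; omega, by rw [Nat.succ_eq_add_one, this, hy]; rfl⟩
  · rintro ⟨Z, hZ, hk, k, hx⟩
    refine ⟨Z, hZ, hk, k + 1, ?_⟩
    rwa [Function.iterate_succ_apply]

/-- an unknown cycle does not contain `0` only -/
theorem unknown_ne {Z : Finset ℤ} (hZ : IsCycle Z) (hk : Z ∉ known) : ∃ x : ℤ, Unknown x ∧ x ≠ 0 := by
  have hZ' := hZ
  obtain ⟨x, p, hp, hx, hZeq⟩ := hZ'
  have hxZ : x ∈ Z := by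
    rw [hZeq, mem_image]
    exact ⟨0, by rw [mem_range]; omega, rfl⟩
  refine ⟨x, ⟨Z, hZ, hk, 0, hxZ⟩, ?_⟩
  rintro rfl
  apply hk
  have hT0 : ∀ i : ℕ, T^[i] 0 = 0 := by
    intro i
    induction i with
    | zero => rfl
    | succ i ih => rw [Function.iterate_succ_apply]; exact ih
  have hZ0 : Z = {0} := by
    rw [hZeq]
    ext z
    rw [mem_image, mem_singleton]
    constructor
    · rintro ⟨i, -, hi⟩
      rw [← hi, hT0]
    · rintro rfl
      exact ⟨0, by rw [mem_range]; omega, rfl⟩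
  rw [hZ0]
  unfold known
  simp

/-- the conditional probability of `A` is positive almost everywhere on `A` -/
theorem condExp_pos {X : Type} [MeasurableSpace X] {μ : Measure X} [IsProbabilityMeasure μ] {R : X → X}
    {A : Set X} (hA : MeasurableSet A) :
    ∀ᵐ x ∂μ, x ∈ A → 0 < (μ[A.indicator (fun _ => (1 : ℝ)) | MeasurableSpace.invariants R]) x := by
  set E := μ[A.indicator (fun _ => (1 : ℝ)) | MeasurableSpace.invariants R] with hE
  have hle := MeasurableSpace.invariants_le R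
  have hint : Integrable (A.indicator (fun _ => (1 : ℝ))) μ := (integrable_const 1).indicator hA
  set Z : Set X := {x | E x ≤ 0} with hZ
  have hZm : MeasurableSet[MeasurableSpace.invariants R] Z := by
    have h1 : StronglyMeasurable[MeasurableSpace.invariants R] E := stronglyMeasurable_condExp
    exact h1.measurable measurableSet_Iic
  have h1 : ∫ x in Z, E x ∂μ = ∫ x in Z, A.indicator (fun _ => (1 : ℝ)) x ∂μ := setIntegral_condExp hle hint hZm
  have h2 : ∫ x in Z, E x ∂μ ≤ 0 := by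
    apply setIntegral_nonpos (hle _ hZm)
    intro x hx
    exact hx
  have h3 : ∫ x in Z, A.indicator (fun _ => (1 : ℝ)) x ∂μ = μ.real (A ∩ Z) := by
    rw [integral_indicator_const _ hA, smul_eq_mul, mul_one, measureReal_restrict_apply hA]
  have h4 : μ.real (A ∩ Z) = 0 := le_antisymm (by linarith) measureReal_nonneg
  rw [measureReal_eq_zero_iff] at h4
  rw [ae_iff]
  refine measure_mono_null (fun x hx => ?_) h4
  push Not at hx
  exact hx

open Classical in
/-- **Basins of cycles along the orbits of measure preserving systems.** Let `R` be a measure preserving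
map of a probability space `(X, μ)`.
(1) For both signs `s`, all invariant sets `S` have a natural density `δ` among the integers of sign
`s`, positive if `S` contains an integer of sign `s`. For every integrable function `f` and almost
every `x`: the means of `(1_S (s n) - δ) f (R ^ n x)` over `1 ≤ n ≤ N` tend to zero uniformly in the
invariant set `S`; for all invariant `S` the sum of `f (R ^ n x)` over the `n ≤ N` with `s n ∈ S`
divided by `N` tends to `δ` times the conditional expectation of `f` with respect to the invariant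
sets of `R`; and the means of `f (R ^ n x)` along the first `K` positive integers `n` with `s n ∈ S` tend
to this conditional expectation.
(2) Let `A` have positive measure. Every cycle of `T` is one of the five known cycles if and only if
for all `x` in some subset of `A` of positive measure the lower density of the visit times `n` of `x`
to `A` such that the trajectory of `n` or of `-n` enters another cycle is zero. -/
theorem result (X : Type) [MeasurableSpace X] (μ : Measure X) [IsProbabilityMeasure μ] (R : X → X)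
    (hR : MeasurePreserving R μ μ) :
    (∀ s : ℤ, (s = 1 ∨ s = -1) →
      (∀ S : Set ℤ, Invariant S → ∃ δ : ℝ, HasDensity s S δ ∧ ((∃ a ∈ S, 0 < s * a) → 0 < δ)) ∧
      ∀ f : X → ℝ, Integrable f μ → ∀ᵐ x ∂μ,
        (∀ ε : ℝ, 0 < ε → ∃ N₀ : ℕ, ∀ N : ℕ, N₀ ≤ N → ∀ S : Set ℤ, Invariant S → ∀ δ : ℝ, HasDensity s S δ →
          |∑ n ∈ Icc 1 N, (S.indicator (fun _ => (1 : ℝ)) (s * n) - δ) * f (R^[n] x)| ≤ ε * N) ∧
        ∀ S : Set ℤ, Invariant S → (∀ δ : ℝ, HasDensity s S δ →
          Tendsto (fun N : ℕ => (∑ n ∈ Icc 1 N with s * ((n : ℕ) : ℤ) ∈ S, f (R^[n] x)) / N) atTop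
            (𝓝 (δ * (μ[f | MeasurableSpace.invariants R]) x))) ∧
          ((∃ a ∈ S, 0 < s * a) →
            Tendsto (fun K : ℕ => (∑ k ∈ range K, f (R^[Nat.nth (fun n => 1 ≤ n ∧ s * n ∈ S) k] x)) / K) atTop
              (𝓝 ((μ[f | MeasurableSpace.invariants R]) x)))) ∧
    ∀ A : Set X, MeasurableSet A → 0 < μ A →
      ((∀ Z : Finset ℤ, IsCycle Z → Z ∈ known) ↔
        ∃ B : Set X, B ⊆ A ∧ 0 < μ B ∧ ∀ x ∈ B, ∀ ε : ℝ, 0 < ε → ∃ᶠ N : ℕ in atTop,
          ({n : ℕ | 1 ≤ n ∧ n ≤ N ∧ R^[n] x ∈ A ∧ (Unknown n ∨ Unknown (-n))}.ncard : ℝ) ≤ ε * N) := by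
  have key : ∀ s : ℤ, (s = 1 ∨ s = -1) → ∀ f : X → ℝ, Integrable f μ → ∀ᵐ x ∂μ,
        (∀ ε : ℝ, 0 < ε → ∃ N₀ : ℕ, ∀ N : ℕ, N₀ ≤ N → ∀ S : Set ℤ, Invariant S → ∀ δ : ℝ, HasDensity s S δ →
          |∑ n ∈ Icc 1 N, (S.indicator (fun _ => (1 : ℝ)) (s * n) - δ) * f (R^[n] x)| ≤ ε * N) ∧
        ∀ S : Set ℤ, Invariant S → ∀ δ : ℝ, HasDensity s S δ →
          Tendsto (fun N : ℕ => (∑ n ∈ Icc 1 N with s * ((n : ℕ) : ℤ) ∈ S, f (R^[n] x)) / N) atTop
            (𝓝 (δ * (μ[f | MeasurableSpace.invariants R]) x)) := by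
    intro s hs f hf
    filter_upwards [Pool.Agent.Q74.CE.l1_ergodic (Pool.Agent.Q74.CE.flat hs) hR hf,
      Pool.Agent.Q74.CE.l1_birkhoff hR hf] with x h1 h2
    have h3 : ∀ ε : ℝ, 0 < ε → ∃ N₀ : ℕ, ∀ N : ℕ, N₀ ≤ N → ∀ S : Set ℤ, Invariant S → ∀ δ : ℝ, HasDensity s S δ →
          |∑ n ∈ Icc 1 N, (S.indicator (fun _ => (1 : ℝ)) (s * n) - δ) * f (R^[n] x)| ≤ ε * N := by
      intro ε hε
      obtain ⟨N₀, h4⟩ := h1 ε hε
      exact ⟨N₀, fun N hN S hS δ hδ => h4 (Pool.Agent.Q74.CE.wt s S δ) ⟨S, hS, δ, hδ, rfl⟩ N hN⟩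
    refine ⟨h3, fun S hS δ hδ => ?_⟩
    apply Pool.Agent.Q74.CE.along _ h2
    intro ε hε
    obtain ⟨N₀, h4⟩ := h3 ε hε
    exact ⟨N₀, fun N hN => h4 N hN S hS δ hδ⟩
  refine ⟨fun s hs => ⟨fun S hS => ?_, fun f hf => ?_⟩, fun A hA hμA => ⟨fun hQ => ?_, ?_⟩⟩
  · obtain ⟨δ, _, _, hδ⟩ := Pool.Agent.Q74.CE.ND_exists hs (S := S) hS
    refine ⟨δ, hδ, ?_⟩
    rintro ⟨a, ha, hsa⟩
    exact Pool.Agent.Q74.CE.ND_pos hs (S := S) hS hδ ha hsa
  · filter_upwards [key s hs f hf] with x hx
    refine ⟨hx.1, fun S hS => ⟨hx.2 S hS, ?_⟩⟩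
    rintro ⟨a, ha, hsa⟩
    obtain ⟨δ, _, _, hδ⟩ := Pool.Agent.Q74.CE.ND_exists hs (S := S) hS
    have hδ0 := Pool.Agent.Q74.CE.ND_pos hs (S := S) hS hδ ha hsa
    have h5 := hx.2 S hS δ hδ
    have hset : ∀ N : ℕ, (Icc 1 N).filter (fun n : ℕ => s * (n : ℤ) ∈ S) =
        (Icc 1 N).filter (fun n : ℕ => 1 ≤ n ∧ s * (n : ℤ) ∈ S) := by
      intro N
      ext n
      simp only [mem_filter, mem_Icc]
      tauto
    refine Pool.Agent.Q74.CE.nth_avg (P := fun n : ℕ => 1 ≤ n ∧ s * (n : ℤ) ∈ S) (g := fun n => f (R^[n] x))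
      (by simp) hδ0 ?_ ?_
    · refine ((Pool.Agent.Q74.CE.ND_card hs).1 hδ).congr fun N => ?_
      rw [hset]
    · refine h5.congr fun N => ?_
      rw [hset]
  · -- no unknown cycles
    refine ⟨A, le_rfl, hμA, fun x _ ε hε => ?_⟩
    apply Filter.Eventually.frequently
    filter_upwards with N
    have h0 : ∀ x : ℤ, ¬ Unknown x := by
      rintro x ⟨Z, hZ, hk, -⟩
      exact hk (hQ Z hZ)
    have h1 : {n : ℕ | 1 ≤ n ∧ n ≤ N ∧ R^[n] x ∈ A ∧ (Unknown n ∨ Unknown (-n))} = ∅ := by
      apply Set.eq_empty_of_forall_notMem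
      rintro n ⟨-, -, -, h | h⟩
      · exact h0 _ h
      · exact h0 _ h
    rw [h1, Set.ncard_empty, Nat.cast_zero]
    positivity
  · rintro ⟨B, hBA, hμB, hB⟩
    by_contra hcon
    push Not at hcon
    obtain ⟨Z, hZ, hk⟩ := hcon
    obtain ⟨y, hy, hy0⟩ := unknown_ne hZ hk
    obtain ⟨s, hs, δ, hδ0, hδ⟩ := Pool.Agent.Q74.CE.dens_of_mem (S := {x | Unknown x}) unknown_inv hy hy0
    have hint : Integrable (A.indicator (fun _ => (1 : ℝ))) μ := (integrable_const 1).indicator hA
    have hnull : ∀ᵐ x ∂μ, x ∉ B := by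
      filter_upwards [key s hs _ hint, condExp_pos (R := R) (μ := μ) hA] with x h1 h2 hxB
      have h3 := h2 (hBA hxB)
      have h4 := h1.2 {x | Unknown x} unknown_inv δ hδ
      set c : ℝ := δ * (μ[A.indicator (fun _ => (1 : ℝ)) | MeasurableSpace.invariants R]) x with hc
      have hc0 : 0 < c := mul_pos hδ0 h3
      have h5 := (tendsto_order.1 h4).1 (c / 2) (by linarith)
      obtain ⟨N, h6, h7, h8⟩ := ((hB x hxB (c / 4) (by positivity)).and_eventually
        (h5.and (eventually_ge_atTop 1))).exists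
      have hNp : (0 : ℝ) < N := by exact_mod_cast h8
      rw [lt_div_iff₀ hNp] at h7
      have h9 : ∑ n ∈ Icc 1 N with s * ((n : ℕ) : ℤ) ∈ {x | Unknown x}, A.indicator (fun _ => (1 : ℝ)) (R^[n] x) ≤
          ({n : ℕ | 1 ≤ n ∧ n ≤ N ∧ R^[n] x ∈ A ∧ (Unknown n ∨ Unknown (-n))}.ncard : ℝ) := by
        have h10 : ∑ n ∈ Icc 1 N with s * ((n : ℕ) : ℤ) ∈ {x | Unknown x}, A.indicator (fun _ => (1 : ℝ)) (R^[n] x) =
            #(((Icc 1 N).filter (fun n : ℕ => s * (n : ℤ) ∈ {x | Unknown x})).filter (fun n => R^[n] x ∈ A)) := by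
          rw [← Finset.sum_boole]
          refine sum_congr rfl fun n _ => ?_
          by_cases h : R^[n] x ∈ A
          · rw [Set.indicator_of_mem h, if_pos h]
          · rw [Set.indicator_of_notMem h, if_neg h]
        rw [h10, ← Set.ncard_coe_finset]
        have h11 : ((((Icc 1 N).filter (fun n : ℕ => s * (n : ℤ) ∈ {x | Unknown x})).filter (fun n => R^[n] x ∈ A) :
            Finset ℕ) : Set ℕ) ⊆ {n : ℕ | 1 ≤ n ∧ n ≤ N ∧ R^[n] x ∈ A ∧ (Unknown n ∨ Unknown (-n))} := by
          intro n hn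
          rw [mem_coe, mem_filter, mem_filter, mem_Icc] at hn
          obtain ⟨⟨⟨ha, hb⟩, hc⟩, hd⟩ := hn
          refine ⟨ha, hb, hd, ?_⟩
          rcases hs with rfl | rfl
          · left; rw [one_mul] at hc; exact hc
          · right; rw [neg_one_mul] at hc; exact hc
        have h12 := Set.ncard_le_ncard h11 ((Set.finite_Icc 1 N).subset (fun n hn => ⟨hn.1, hn.2.1⟩))
        exact_mod_cast h12
      have : c / 4 * N < c / 2 * N := by
        apply mul_lt_mul_of_pos_right _ hNp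
        linarith
      linarith
    have : μ B = 0 := by
      rw [ae_iff] at hnull
      simpa using hnull
    exact hμB.ne' this

end Pool.Agent.Results.MP_edb5be_nt.BasinsAlongOrbits
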