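import Pool.Agent.Q74.CE.Slide

set_option autoImplicit false

namespace Pool.Agent.Q74.CE

open Finset Filter Topology

section
variable {E : Type*} [NormedAddCommGroup E] [NormedSpace ℝ E]

omit [NormedSpace ℝ E] in
theorem teleE (a : ℕ → E) (N : ℕ) :
    ∑ n ∈ Icc 1 N, a n - ∑ n ∈ Icc 1 N, a (n + 1) = a 1 - a (N + 1) := by
  induction N with
  | zero => simp
  | succ N ih =>
    rw [Finset.sum_Icc_succ_top (by omega), Finset.sum_Icc_succ_top (by omega), add_sub_add_comm, ih]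
    abel

omit [NormedSpace ℝ E] in
theorem shift_sumE {a : ℕ → E} {C : ℝ} (ha : ∀ n, ‖a n‖ ≤ C) (N j : ℕ) :
    ‖∑ n ∈ Icc 1 N, a n - ∑ n ∈ Icc 1 N, a (n + j)‖ ≤ 2 * C * j := by
  induction j with
  | zero => simp
  | succ j ih =>
    have h1 := teleE (fun n => a (n + j)) N
    have h2 : ∑ n ∈ Icc 1 N, a (n + (j + 1)) = ∑ n ∈ Icc 1 N, a (n + 1 + j) :=
      sum_congr rfl fun n _ => by rw [show n + (j + 1) = n + 1 + j by ring]
    have h3 := norm_sub_le (a (1 + j)) (a (N + 1 + j))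
    have h4 := ha (1 + j)
    have h5 := ha (N + 1 + j)
    have h6 : ‖∑ n ∈ Icc 1 N, a n - ∑ n ∈ Icc 1 N, a (n + (j + 1))‖ ≤
        ‖∑ n ∈ Icc 1 N, a n - ∑ n ∈ Icc 1 N, a (n + j)‖ +
          ‖∑ n ∈ Icc 1 N, a (n + j) - ∑ n ∈ Icc 1 N, a (n + 1 + j)‖ := by
      rw [h2]
      exact norm_sub_le_norm_sub_add_norm_sub _ _ _
    have h7 : ‖∑ n ∈ Icc 1 N, a (n + j) - ∑ n ∈ Icc 1 N, a (n + 1 + j)‖ ≤ 2 * C := by
      have : ∑ n ∈ Icc 1 N, a (n + j) - ∑ n ∈ Icc 1 N, a (n + 1 + j) = a (1 + j) - a (N + 1 + j) := h1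
      rw [this]
      linarith
    push_cast
    linarith

/-- Sliding windows. -/
theorem slideE {w : ℕ → ℝ} {g : ℕ → E} (hw : ∀ n, |w n| ≤ 1) {C : ℝ} (hg : ∀ n, ‖g n‖ ≤ C) {N H : ℕ}
    (hH : 1 ≤ H) (B : Finset ℕ) (hB : ∀ n ∈ Icc 1 N, n ∉ B → ∀ j < H, w (n + j) = w n) :
    ‖∑ n ∈ Icc 1 N, w n • g n‖ ≤ 2 * C * H + C * B.card +
      ∑ n ∈ Icc 1 N, ‖∑ j ∈ range H, g (n + j)‖ / H := by
  classical
  have hC : 0 ≤ C := (norm_nonneg _).trans (hg 0)
  have hH0 : (0 : ℝ) < H := by exact_mod_cast hH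
  have hwg : ∀ n, ‖w n • g n‖ ≤ C := fun n => by
    rw [norm_smul, Real.norm_eq_abs]
    calc |w n| * ‖g n‖ ≤ 1 * C := mul_le_mul (hw n) (hg n) (norm_nonneg _) zero_le_one
      _ = C := one_mul C
  have h1 : ∀ j ∈ range H, ‖∑ n ∈ Icc 1 N, w n • g n - ∑ n ∈ Icc 1 N, w (n + j) • g (n + j)‖ ≤ 2 * C * H := by
    intro j hj
    rw [mem_range] at hj
    refine (shift_sumE hwg N j).trans ?_
    have : (j : ℝ) ≤ H := by exact_mod_cast hj.le
    exact mul_le_mul_of_nonneg_left this (by positivity)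
  have h2 : ‖(H : ℝ) • ∑ n ∈ Icc 1 N, w n • g n - ∑ j ∈ range H, ∑ n ∈ Icc 1 N, w (n + j) • g (n + j)‖ ≤
      H * (2 * C * H) := by
    have : (H : ℝ) • ∑ n ∈ Icc 1 N, w n • g n - ∑ j ∈ range H, ∑ n ∈ Icc 1 N, w (n + j) • g (n + j) =
        ∑ j ∈ range H, (∑ n ∈ Icc 1 N, w n • g n - ∑ n ∈ Icc 1 N, w (n + j) • g (n + j)) := by
      rw [sum_sub_distrib, sum_const, card_range, Nat.cast_smul_eq_nsmul]
    rw [this]
    refine (norm_sum_le _ _).trans ((sum_le_sum h1).trans ?_)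
    rw [sum_const, card_range, nsmul_eq_mul]
  have h3 : ‖∑ j ∈ range H, ∑ n ∈ Icc 1 N, w (n + j) • g (n + j)‖ ≤
      ∑ n ∈ Icc 1 N, ‖∑ j ∈ range H, g (n + j)‖ + H * (C * B.card) := by
    rw [sum_comm]
    refine (norm_sum_le _ _).trans ?_
    have h4 : ∀ n ∈ Icc 1 N, ‖∑ j ∈ range H, w (n + j) • g (n + j)‖ ≤
        ‖∑ j ∈ range H, g (n + j)‖ + (if n ∈ B then (H : ℝ) * C else 0) := by
      intro n hn
      split_ifs with hb
      · have h5 : ‖∑ j ∈ range H, w (n + j) • g (n + j)‖ ≤ H * C := by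
          refine (norm_sum_le _ _).trans ((sum_le_sum fun j _ => hwg (n + j)).trans ?_)
          rw [sum_const, card_range, nsmul_eq_mul]
        have := norm_nonneg (∑ j ∈ range H, g (n + j))
        linarith
      · have h5 : ∑ j ∈ range H, w (n + j) • g (n + j) = w n • ∑ j ∈ range H, g (n + j) := by
          rw [smul_sum]
          refine sum_congr rfl fun j hj => ?_
          rw [hB n hn hb j (mem_range.1 hj)]
        rw [h5, norm_smul, Real.norm_eq_abs, add_zero]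
        calc |w n| * ‖∑ j ∈ range H, g (n + j)‖ ≤ 1 * ‖∑ j ∈ range H, g (n + j)‖ :=
              mul_le_mul_of_nonneg_right (hw n) (norm_nonneg _)
          _ = _ := one_mul _
    refine (sum_le_sum h4).trans ?_
    rw [sum_add_distrib]
    have h6 : ∑ n ∈ Icc 1 N, (if n ∈ B then (H : ℝ) * C else 0) ≤ H * (C * B.card) := by
      rw [← sum_filter, sum_const, nsmul_eq_mul]
      have h7 : (((Icc 1 N).filter (fun n => n ∈ B)).card : ℝ) ≤ B.card := by
        exact_mod_cast card_le_card (fun n hn => (mem_filter.1 hn).2)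
      calc (((Icc 1 N).filter (fun n => n ∈ B)).card : ℝ) * (H * C) ≤ B.card * (H * C) :=
            mul_le_mul_of_nonneg_right h7 (by positivity)
        _ = _ := by ring
    linarith
  have h8 : (H : ℝ) * ‖∑ n ∈ Icc 1 N, w n • g n‖ ≤ H * (2 * C * H) +
      (∑ n ∈ Icc 1 N, ‖∑ j ∈ range H, g (n + j)‖ + H * (C * B.card)) := by
    have e : (H : ℝ) * ‖∑ n ∈ Icc 1 N, w n • g n‖ = ‖(H : ℝ) • ∑ n ∈ Icc 1 N, w n • g n‖ := by
      rw [norm_smul, Real.norm_eq_abs, abs_of_pos hH0]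
    rw [e]
    have := norm_sub_norm_le ((H : ℝ) • ∑ n ∈ Icc 1 N, w n • g n)
      (∑ j ∈ range H, ∑ n ∈ Icc 1 N, w (n + j) • g (n + j))
    linarith
  rw [← sum_div]
  have h10 : ‖∑ n ∈ Icc 1 N, w n • g n‖ ≤ (H * (2 * C * H) +
      (∑ n ∈ Icc 1 N, ‖∑ j ∈ range H, g (n + j)‖ + H * (C * B.card))) / H := by
    rw [le_div_iff₀ hH0]
    linarith
  refine h10.trans (le_of_eq ?_)
  field_simp
  ring

/-- Bounded sequences whose means over long windows are mostly small are orthogonal to the weights. -/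
theorem Flat.orthE {W : Set (ℕ → ℝ)} (hW : Flat W) {g : ℕ → E} {C : ℝ} (hg : ∀ n, ‖g n‖ ≤ C)
    (h : ∀ ε : ℝ, 0 < ε → ∃ H : ℕ, 1 ≤ H ∧ ∃ N₀ : ℕ, ∀ N ≥ N₀,
      ∑ n ∈ Icc 1 N, ‖∑ j ∈ range H, g (n + j)‖ / H ≤ ε * N) {ε : ℝ} (hε : 0 < ε) :
    ∃ N₀ : ℕ, ∀ w ∈ W, ∀ N ≥ N₀, ‖∑ n ∈ Icc 1 N, w n • g n‖ ≤ ε * N := by
  have hC : 0 ≤ C := (norm_nonneg _).trans (hg 0)
  set D : ℝ := C + 1 with hD
  have hD0 : 0 < D := by positivity
  obtain ⟨H, hH, N₁, h1⟩ := h (ε / 4) (by positivity)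
  obtain ⟨N₂, h2⟩ := hW.win H (ε / (4 * D)) (by positivity)
  obtain ⟨N₄, h4⟩ := exists_nat_ge (2 * D * H / (ε / 4))
  refine ⟨max (max N₁ N₂) N₄, fun w hw N hN => ?_⟩
  have hN1 : N₁ ≤ N := (le_max_left _ _).trans ((le_max_left _ _).trans hN)
  have hN2 : N₂ ≤ N := (le_max_right _ _).trans ((le_max_left _ _).trans hN)
  have hN4 : N₄ ≤ N := (le_max_right _ _).trans hN
  obtain ⟨B, hB1, hB2⟩ := h2 N hN2
  have h5 := slideE (w := w) (g := g) (C := D) (hW.bdd w hw) (fun n => (hg n).trans (by linarith)) (N := N)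
    hH B (hB2 w hw)
  have h7 := h1 N hN1
  have h8 : D * B.card ≤ ε / 4 * N := by
    calc D * B.card ≤ D * (ε / (4 * D) * N) := mul_le_mul_of_nonneg_left hB1 hD0.le
      _ = ε / 4 * N := by field_simp
  have h9 : 2 * D * H ≤ ε / 4 * N := by
    have h10 : (N₄ : ℝ) ≤ N := by exact_mod_cast hN4
    have h11 := h4.trans h10
    rw [div_le_iff₀ (by positivity)] at h11
    linarith
  have : (0 : ℝ) ≤ ε * N := by positivity
  linarith

end

/-! ### Correlations -/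

/-- `g` has the correlations `γ`. -/
def HasCorr (g : ℕ → ℂ) (γ : ℕ → ℂ) : Prop :=
  ∀ h : ℕ, Tendsto (fun N : ℕ => (∑ n ∈ Icc 1 N, g (n + h) * (starRingEnd ℂ) (g n)) / N) atTop (𝓝 (γ h))

/-- the limit of the mean of `g (n + j) * conj (g (n + k))` -/
noncomputable def Gm (γ : ℕ → ℂ) (j k : ℕ) : ℂ := if k ≤ j then γ (j - k) else (starRingEnd ℂ) (γ (k - j))

theorem lim_pair {g γ : ℕ → ℂ} {C : ℝ} (hg : ∀ n, ‖g n‖ ≤ C) (hγ : HasCorr g γ) (j k : ℕ) :
    Tendsto (fun N : ℕ => (∑ n ∈ Icc 1 N, g (n + j) * (starRingEnd ℂ) (g (n + k))) / N) atTop (𝓝 (Gm γ j k)) := by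
  have hC : 0 ≤ C := (norm_nonneg _).trans (hg 0)
  -- shifting does not matter
  have hshift : ∀ (a : ℕ → ℂ) (D : ℝ), (∀ n, ‖a n‖ ≤ D) → ∀ (l : ℕ) (L : ℂ),
      Tendsto (fun N : ℕ => (∑ n ∈ Icc 1 N, a n) / N) atTop (𝓝 L) →
      Tendsto (fun N : ℕ => (∑ n ∈ Icc 1 N, a (n + l)) / N) atTop (𝓝 L) := by
    intro a D ha l L hL
    have h1 : Tendsto (fun N : ℕ => (∑ n ∈ Icc 1 N, a n - ∑ n ∈ Icc 1 N, a (n + l)) / (N : ℂ)) atTop (𝓝 0) := by
      rw [tendsto_zero_iff_norm_tendsto_zero]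
      have h2 : Tendsto (fun N : ℕ => (2 * D * l) / (N : ℝ)) atTop (𝓝 0) := tendsto_const_div_atTop_nhds_zero_nat _
      refine squeeze_zero (fun _ => norm_nonneg _) (fun N => ?_) h2
      rw [norm_div, Complex.norm_natCast]
      exact div_le_div_of_nonneg_right (shift_sumE ha N l) (Nat.cast_nonneg N)
    have h2 := hL.sub h1
    rw [sub_zero] at h2
    refine h2.congr fun N => ?_
    rw [← sub_div]
    congr 1
    ring
  unfold Gm
  split_ifs with hjk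
  · have h1 := hshift (fun n => g (n + (j - k)) * (starRingEnd ℂ) (g n)) (C * C) (fun n => by
      rw [norm_mul, RCLike.norm_conj]
      exact mul_le_mul (hg _) (hg _) (norm_nonneg _) hC) k _ (hγ (j - k))
    refine h1.congr fun N => ?_
    congr 1
    refine sum_congr rfl fun n _ => ?_
    rw [show n + k + (j - k) = n + j by omega]
  · have h1 := hshift (fun n => g (n + (k - j)) * (starRingEnd ℂ) (g n)) (C * C) (fun n => by
      rw [norm_mul, RCLike.norm_conj]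
      exact mul_le_mul (hg _) (hg _) (norm_nonneg _) hC) j _ (hγ (k - j))
    have h2 := (Complex.continuous_conj.tendsto _).comp h1
    refine h2.congr fun N => ?_
    simp only [Function.comp, map_div₀, map_sum, map_mul, Complex.conj_conj, Complex.conj_natCast]
    congr 1
    refine sum_congr rfl fun n _ => ?_
    rw [show n + j + (k - j) = n + k by omega, mul_comm]

theorem Gm_sum (γ : ℕ → ℂ) (H : ℕ) :
    ∑ j ∈ range H, ∑ k ∈ range H, Gm γ j k =
      ∑ K ∈ range H, ((∑ h ∈ range (K + 1), γ h) + (starRingEnd ℂ) (∑ h ∈ range (K + 1), γ h)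
        - (starRingEnd ℂ) (γ 0)) := by
  induction H with
  | zero => simp
  | succ H ih =>
    have h1 : ∑ j ∈ range H, ∑ k ∈ range (H + 1), Gm γ j k =
        ∑ j ∈ range H, ∑ k ∈ range H, Gm γ j k + ∑ j ∈ range H, Gm γ j H := by
      rw [← sum_add_distrib]
      exact sum_congr rfl fun j _ => sum_range_succ _ _
    have h2 : ∑ k ∈ range (H + 1), Gm γ H k = ∑ h ∈ range (H + 1), γ h := by
      rw [← sum_range_reflect]
      refine sum_congr rfl fun k hk => ?_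
      rw [mem_range] at hk
      unfold Gm
      rw [if_pos (by omega)]
      congr 1
      omega
    have h3 : ∑ j ∈ range H, Gm γ j H = (starRingEnd ℂ) (∑ h ∈ range (H + 1), γ h) - (starRingEnd ℂ) (γ 0) := by
      rw [sum_range_succ', map_add, add_sub_cancel_right, map_sum, ← sum_range_reflect]
      refine sum_congr rfl fun k hk => ?_
      rw [mem_range] at hk
      unfold Gm
      rw [if_neg (by omega)]
      congr 2
      omega
    rw [sum_range_succ (fun j => ∑ k ∈ range (H + 1), Gm γ j k) H, h1, ih, h2, h3]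
    conv_rhs => rw [sum_range_succ]
    ring

/-- the Cesàro means of the correlations tend to zero: the second moments of the window means, too -/
theorem Gm_lim {γ : ℕ → ℂ} (h : Tendsto (fun H : ℕ => (∑ h ∈ range H, γ h) / H) atTop (𝓝 0)) :
    Tendsto (fun H : ℕ => (∑ j ∈ range H, ∑ k ∈ range H, Gm γ j k) / (H : ℂ) ^ 2) atTop (𝓝 0) := by
  rw [Metric.tendsto_atTop] at h ⊢
  intro ε hε
  obtain ⟨K₀, hK₀⟩ := h (ε / 4) (by positivity)
  -- a bound for the small ones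
  set D : ℝ := ∑ K ∈ range K₀, ‖∑ h ∈ range (K + 1), γ h‖ + ‖γ 0‖ with hD
  have hD0 : 0 ≤ D := by positivity
  have hb : ∀ K, ‖∑ h ∈ range (K + 1), γ h‖ ≤ D + ε / 4 * (K + 1) := by
    intro K
    rcases Nat.lt_or_ge K K₀ with h1 | h1
    · have : ‖∑ h ∈ range (K + 1), γ h‖ ≤ ∑ K ∈ range K₀, ‖∑ h ∈ range (K + 1), γ h‖ :=
        single_le_sum (f := fun K => ‖∑ h ∈ range (K + 1), γ h‖) (fun _ _ => norm_nonneg _) (mem_range.2 h1)
      have h2 := norm_nonneg (γ 0)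
      have h3 : (0 : ℝ) ≤ ε / 4 * (K + 1) := by positivity
      linarith
    · have h2 := hK₀ (K + 1) (by omega)
      rw [dist_zero_right, norm_div, Complex.norm_natCast, div_lt_iff₀ (by positivity)] at h2
      push_cast at h2
      linarith
  obtain ⟨H₀, hH₀⟩ := exists_nat_ge (3 * D / (ε / 4))
  refine ⟨max H₀ 1, fun H hH => ?_⟩
  have hH1 : 1 ≤ H := (le_max_right _ _).trans hH
  have hHr : (1 : ℝ) ≤ H := by exact_mod_cast hH1
  have hH2 : (H₀ : ℝ) ≤ H := by exact_mod_cast (le_max_left _ _).trans hH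
  have h1 := hH₀.trans hH2
  rw [div_le_iff₀ (by positivity)] at h1
  rw [dist_zero_right, norm_div, norm_pow, Complex.norm_natCast, div_lt_iff₀ (by positivity), Gm_sum]
  have h2 : ‖∑ K ∈ range H, ((∑ h ∈ range (K + 1), γ h) + (starRingEnd ℂ) (∑ h ∈ range (K + 1), γ h)
        - (starRingEnd ℂ) (γ 0))‖ ≤ ∑ K ∈ range H, (3 * D + ε / 2 * H) := by
    refine (norm_sum_le _ _).trans (sum_le_sum fun K hK => ?_)
    rw [mem_range] at hK
    have h3 := norm_sub_le ((∑ h ∈ range (K + 1), γ h) + (starRingEnd ℂ) (∑ h ∈ range (K + 1), γ h))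
      ((starRingEnd ℂ) (γ 0))
    have h4 := norm_add_le (∑ h ∈ range (K + 1), γ h) ((starRingEnd ℂ) (∑ h ∈ range (K + 1), γ h))
    rw [RCLike.norm_conj] at h3 h4
    have h5 := hb K
    have h6 : (K : ℝ) + 1 ≤ H := by exact_mod_cast hK
    have h7 : ‖γ 0‖ ≤ D := by
      rw [hD]
      have : 0 ≤ ∑ K ∈ range K₀, ‖∑ h ∈ range (K + 1), γ h‖ := sum_nonneg fun _ _ => norm_nonneg _
      linarith
    have h8 : ε / 4 * ((K : ℝ) + 1) ≤ ε / 4 * H := mul_le_mul_of_nonneg_left h6 (by positivity)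
    linarith
  rw [sum_const, card_range, nsmul_eq_mul] at h2
  have h3 : (H : ℝ) * (3 * D + ε / 2 * H) < ε * H ^ 2 := by nlinarith
  linarith

/-- **Sequences with correlations.** If the correlations of a bounded sequence exist and have mean
zero, then the sequence is orthogonal to the weights. -/
theorem Flat.corr {W : Set (ℕ → ℝ)} (hW : Flat W) {g γ : ℕ → ℂ} {C : ℝ} (hg : ∀ n, ‖g n‖ ≤ C) (hγ : HasCorr g γ)
    (h : Tendsto (fun H : ℕ => (∑ h ∈ range H, γ h) / H) atTop (𝓝 0)) {ε : ℝ} (hε : 0 < ε) :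
    ∃ N₀ : ℕ, ∀ w ∈ W, ∀ N ≥ N₀, ‖∑ n ∈ Icc 1 N, w n • g n‖ ≤ ε * N := by
  refine hW.orthE hg (fun η hη => ?_) hε
  -- choose the length of the windows
  obtain ⟨H, hH, h1⟩ : ∃ H : ℕ, 1 ≤ H ∧ ‖(∑ j ∈ range H, ∑ k ∈ range H, Gm γ j k) / (H : ℂ) ^ 2‖ < η ^ 2 / 2 := by
    have h2 := (Gm_lim h).norm
    rw [norm_zero] at h2
    obtain ⟨H, h3, h4⟩ := (((tendsto_order.1 h2).2 (η ^ 2 / 2) (by positivity)).and (eventually_ge_atTop 1)).exists
    exact ⟨H, h4, h3⟩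
  have hHr : (0 : ℝ) < H := by exact_mod_cast hH
  have hHc : (H : ℂ) ≠ 0 := by exact_mod_cast (by omega : H ≠ 0)
  have h2 : Tendsto (fun N : ℕ => (∑ n ∈ Icc 1 N, ((‖∑ j ∈ range H, g (n + j)‖ / H) ^ 2 : ℝ)) / N) atTop
      (𝓝 ((∑ j ∈ range H, ∑ k ∈ range H, Gm γ j k) / (H : ℂ) ^ 2).re) := by
    have h3 : Tendsto (fun N : ℕ => (∑ j ∈ range H, ∑ k ∈ range H,
        (∑ n ∈ Icc 1 N, g (n + j) * (starRingEnd ℂ) (g (n + k))) / N) / (H : ℂ) ^ 2) atTop
        (𝓝 ((∑ j ∈ range H, ∑ k ∈ range H, Gm γ j k) / (H : ℂ) ^ 2)) :=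
      (tendsto_finsetSum _ fun j _ => tendsto_finsetSum _ fun k _ => lim_pair hg hγ j k).div_const _
    have h4 := (Complex.continuous_re.tendsto _).comp h3
    refine h4.congr fun N => ?_
    simp only [Function.comp]
    have h5 : (∑ j ∈ range H, ∑ k ∈ range H,
        (∑ n ∈ Icc 1 N, g (n + j) * (starRingEnd ℂ) (g (n + k))) / N) / (H : ℂ) ^ 2 =
        (((∑ n ∈ Icc 1 N, ((‖∑ j ∈ range H, g (n + j)‖ / H) ^ 2 : ℝ)) / N : ℝ) : ℂ) := by
      have h6 : ∑ j ∈ range H, ∑ k ∈ range H,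
          (∑ n ∈ Icc 1 N, g (n + j) * (starRingEnd ℂ) (g (n + k))) / (N : ℂ) =
          (∑ n ∈ Icc 1 N, (∑ j ∈ range H, g (n + j)) * (starRingEnd ℂ) (∑ j ∈ range H, g (n + j))) / (N : ℂ) := by
        simp only [← sum_div]
        congr 1
        have h7 : ∀ n, (∑ j ∈ range H, g (n + j)) * (starRingEnd ℂ) (∑ j ∈ range H, g (n + j)) =
            ∑ j ∈ range H, ∑ k ∈ range H, g (n + j) * (starRingEnd ℂ) (g (n + k)) := by
          intro n
          rw [map_sum, sum_mul_sum]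
        simp only [h7]
        rw [sum_congr rfl fun j _ => sum_comm, sum_comm]
      rw [h6]
      push_cast
      rw [div_div, mul_comm (N : ℂ), ← div_div]
      congr 1
      rw [sum_div]
      refine sum_congr rfl fun n _ => ?_
      rw [Complex.mul_conj, Complex.normSq_eq_norm_sq, div_pow]
      push_cast
      ring
    rw [h5, Complex.ofReal_re]
  obtain ⟨N₀, hN₀⟩ := eventually_atTop.1 ((tendsto_order.1 h2).2 (η ^ 2) (by
    have h3 := Complex.re_le_norm ((∑ j ∈ range H, ∑ k ∈ range H, Gm γ j k) / (H : ℂ) ^ 2)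
    have h4 : 0 < η ^ 2 := by positivity
    linarith))
  refine ⟨H, hH, max N₀ 1, fun N hN => ?_⟩
  have hN1 : 1 ≤ N := (le_max_right _ _).trans hN
  have hNr : (0 : ℝ) < N := by exact_mod_cast hN1
  have h3 := hN₀ N ((le_max_left _ _).trans hN)
  rw [div_lt_iff₀ hNr] at h3
  -- Cauchy-Schwarz
  have h4 : (∑ n ∈ Icc 1 N, ‖∑ j ∈ range H, g (n + j)‖ / H) ^ 2 ≤
      N * ∑ n ∈ Icc 1 N, (‖∑ j ∈ range H, g (n + j)‖ / H) ^ 2 := by
    have := sq_sum_le_card_mul_sum_sq (s := Icc 1 N) (f := fun n => ‖∑ j ∈ range H, g (n + j)‖ / H)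
    rwa [Nat.card_Icc, Nat.add_sub_cancel] at this
  have h0 : 0 ≤ ∑ n ∈ Icc 1 N, ‖∑ j ∈ range H, g (n + j)‖ / H := sum_nonneg fun n _ => by positivity
  apply (pow_le_pow_iff_left₀ h0 (by positivity) two_ne_zero).1
  refine h4.trans ?_
  rw [mul_pow]
  nlinarith

end Pool.Agent.Q74.CE
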