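import Mathlib

set_option autoImplicit false

namespace Pool.Agent.Q74.CE

open Finset Filter Topology

theorem sum_nth {P : ℕ → Prop} [DecidablePred P] (hP : (Set.ofPred P).Infinite) (g : ℕ → ℝ) (K : ℕ) :
    ∑ k ∈ range K, g (Nat.nth P k) = ∑ n ∈ range (Nat.nth P K) with P n, g n := by
  induction K with
  | zero =>
    rw [range_zero, sum_empty]
    symm
    apply sum_eq_zero
    intro n hn
    rw [mem_filter, mem_range] at hn
    exact absurd (Nat.nth_zero ▸ Nat.sInf_le hn.2) (not_le.2 hn.1)
  | succ K ih =>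
    have h := Nat.filter_range_nth_eq_insert_of_infinite hP K
    rw [sum_range_succ, ih, h, sum_insert]
    · ring
    · rw [mem_filter, mem_range]
      exact fun h => lt_irrefl _ h.1

theorem count_nth {P : ℕ → Prop} [DecidablePred P] (hP : (Set.ofPred P).Infinite) (K : ℕ) :
    (#{n ∈ range (Nat.nth P K) | P n} : ℝ) = K := by
  have := sum_nth hP (fun _ => 1) K
  simp only [sum_const, card_range, nsmul_eq_mul, mul_one] at this
  exact this.symm

/-- Averages along the elements of a set of positive density. -/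
theorem nth_avg {P : ℕ → Prop} [DecidablePred P] (h0 : ¬ P 0) {g : ℕ → ℝ} {δ L : ℝ} (hδ : 0 < δ)
    (hd : Tendsto (fun N : ℕ => (#{n ∈ Icc 1 N | P n} : ℝ) / N) atTop (𝓝 δ))
    (hg : Tendsto (fun N : ℕ => (∑ n ∈ Icc 1 N with P n, g n) / N) atTop (𝓝 (δ * L))) :
    Tendsto (fun K : ℕ => (∑ k ∈ range K, g (Nat.nth P k)) / K) atTop (𝓝 L) := by
  have hinf : (Set.ofPred P).Infinite := by
    intro hfin
    have h1 : Tendsto (fun N : ℕ => (#{n ∈ Icc 1 N | P n} : ℝ) / N) atTop (𝓝 0) := by
      apply squeeze_zero (g := fun N : ℕ => (hfin.toFinset.card : ℝ) / N)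
      · intro N; positivity
      · intro N
        apply div_le_div_of_nonneg_right _ (Nat.cast_nonneg N)
        exact_mod_cast card_le_card (fun n hn => by
          rw [mem_filter] at hn
          rw [Set.Finite.mem_toFinset]
          exact hn.2)
      · exact tendsto_const_div_atTop_nhds_zero_nat _
    exact hδ.ne' (tendsto_nhds_unique hd h1)
  have hmono : StrictMono (Nat.nth P) := Nat.nth_strictMono hinf
  have hpos : ∀ K, 1 ≤ Nat.nth P K := by
    intro K
    rcases Nat.eq_zero_or_pos (Nat.nth P K) with h | h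
    · exact absurd (h ▸ Nat.nth_mem_of_infinite hinf K) h0
    · exact h
  set N : ℕ → ℕ := fun K => Nat.nth P K - 1 with hN
  have hNt : Tendsto N atTop atTop := by
    apply tendsto_atTop_mono (f := fun K : ℕ => K - 1)
    · intro K
      have := hmono.le_apply (x := K)
      simp only [hN]
      omega
    · exact tendsto_sub_atTop_nat 1
  have hset : ∀ K, (Icc 1 (N K)).filter P = (range (Nat.nth P K)).filter P := by
    intro K
    ext n
    have := hpos K
    simp only [hN, mem_filter, mem_Icc, mem_range]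
    constructor
    · rintro ⟨⟨h1, h2⟩, h3⟩
      exact ⟨by omega, h3⟩
    · rintro ⟨h1, h2⟩
      refine ⟨⟨?_, by omega⟩, h2⟩
      rcases Nat.eq_zero_or_pos n with h | h
      · exact absurd (h ▸ h2) h0
      · exact h
  have h1 := (hg.comp hNt).div (hd.comp hNt) hδ.ne'
  rw [mul_div_cancel_left₀ _ hδ.ne'] at h1
  refine h1.congr' ?_
  filter_upwards [hNt.eventually_ge_atTop 1, eventually_ge_atTop 1] with K hK hK1
  have hNp : (0 : ℝ) < N K := by exact_mod_cast hK
  simp only [Pi.div_apply, Function.comp]
  rw [hset K, ← sum_nth hinf g K, count_nth hinf K, div_div_div_cancel_right₀ hNp.ne']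

end Pool.Agent.Q74.CE
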