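import Pool.Agent.Q74.CE.Win
import Pool.Agent.Q74.CE.Nth

set_option autoImplicit false

/-! Common facts about the cycles of the `3x+1` map. -/

namespace Pool.Agent.Q74.CE

open Finset Filter Topology
open Pool.Agent.H499R2.ND (Td Inv)

/-- counting the elements of a set of given sign -/
theorem ncard_side {s : ℤ} (hs : s = 1 ∨ s = -1) (S : Set ℤ) [DecidablePred fun n : ℕ => s * (n : ℤ) ∈ S] (N : ℕ) :
    ({n : ℤ | 0 < s * n ∧ s * n ≤ N ∧ n ∈ S}.ncard : ℝ) = #{n ∈ Icc 1 N | s * ((n : ℕ) : ℤ) ∈ S} := by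
  classical
  have h1 : {n : ℤ | 0 < s * n ∧ s * n ≤ N ∧ n ∈ S} =
      (((Icc 1 N).filter (fun t : ℕ => s * (t : ℤ) ∈ S)).image (fun t : ℕ => s * (t : ℤ)) : Finset ℤ) := by
    ext x
    simp only [Set.mem_ofPred_eq, coe_image, coe_filter, mem_Icc, Set.mem_image]
    constructor
    · rintro ⟨h1, h2, h3⟩
      refine ⟨(s * x).toNat, ?_, ?_⟩
      · have h4 : ((s * x).toNat : ℤ) = s * x := Int.toNat_of_nonneg h1.le
        refine ⟨⟨by omega, by omega⟩, ?_⟩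
        rw [h4]
        have h5 : s * (s * x) = x := by rcases hs with rfl | rfl <;> ring
        rwa [h5]
      · have h4 : ((s * x).toNat : ℤ) = s * x := Int.toNat_of_nonneg h1.le
        rw [h4]
        rcases hs with rfl | rfl <;> ring
    · rintro ⟨t, ⟨⟨h1, h2⟩, h3⟩, rfl⟩
      have h5 : s * (s * (t : ℤ)) = t := by rcases hs with rfl | rfl <;> ring
      rw [h5]
      exact ⟨by exact_mod_cast h1, by exact_mod_cast h2, h3⟩
  rw [h1, Set.ncard_coe_finset, Finset.card_image_of_injective]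
  intro a b hab
  simp only at hab
  rcases hs with rfl | rfl <;> omega

theorem ND_card {s : ℤ} (hs : s = 1 ∨ s = -1) {S : Set ℤ} [DecidablePred fun n : ℕ => s * (n : ℤ) ∈ S] {δ : ℝ} :
    ND s S δ ↔ Tendsto (fun N : ℕ => (#{n ∈ Icc 1 N | s * ((n : ℕ) : ℤ) ∈ S} : ℝ) / N) atTop (𝓝 δ) := by
  unfold ND
  simp only [ncard_side hs S]

/-- from the weights to the sums along the set -/
theorem sum_split {s : ℤ} {S : Set ℤ} [DecidablePred fun n : ℕ => s * (n : ℤ) ∈ S] (δ : ℝ) (a : ℕ → ℝ) (N : ℕ) :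
    ∑ n ∈ Icc 1 N with s * ((n : ℕ) : ℤ) ∈ S, a n = ∑ n ∈ Icc 1 N, wt s S δ n * a n + δ * ∑ n ∈ Icc 1 N, a n := by
  rw [sum_filter, mul_sum, ← sum_add_distrib]
  refine sum_congr rfl fun n _ => ?_
  unfold wt
  by_cases h : s * (n : ℤ) ∈ S
  · rw [if_pos h, Set.indicator_of_mem h]; ring
  · rw [if_neg h, Set.indicator_of_notMem h]; ring

/-- orthogonality to the weights gives averages along the set -/
theorem along {s : ℤ} {S : Set ℤ} [DecidablePred fun n : ℕ => s * (n : ℤ) ∈ S] {δ : ℝ} {a : ℕ → ℝ} {L : ℝ}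
    (h : ∀ ε : ℝ, 0 < ε → ∃ N₀ : ℕ, ∀ N ≥ N₀, |∑ n ∈ Icc 1 N, wt s S δ n * a n| ≤ ε * N)
    (hL : Tendsto (fun N : ℕ => (∑ n ∈ Icc 1 N, a n) / N) atTop (𝓝 L)) :
    Tendsto (fun N : ℕ => (∑ n ∈ Icc 1 N with s * ((n : ℕ) : ℤ) ∈ S, a n) / N) atTop (𝓝 (δ * L)) := by
  have h0 : Tendsto (fun N : ℕ => (∑ n ∈ Icc 1 N, wt s S δ n * a n) / N) atTop (𝓝 0) := by
    rw [Metric.tendsto_atTop]
    intro ε hε
    obtain ⟨N₀, hN₀⟩ := h (ε / 2) (by positivity)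
    refine ⟨max N₀ 1, fun N hN => ?_⟩
    have hN0 : (0 : ℝ) < N := by exact_mod_cast (le_max_right _ _).trans hN
    rw [Real.dist_eq, sub_zero, abs_div, abs_of_pos hN0, div_lt_iff₀ hN0]
    have := hN₀ N ((le_max_left _ _).trans hN)
    nlinarith
  have h1 := h0.add (hL.const_mul δ)
  rw [zero_add] at h1
  refine h1.congr fun N => ?_
  rw [sum_split δ a N, add_div, mul_div_assoc]

/-- the set of the integers which lead to bad cycles, when there is one -/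
theorem dens_of_mem {S : Set ℤ} (hS : Inv 1 S) {x : ℤ} (hx : x ∈ S) (hx0 : x ≠ 0) :
    ∃ s : ℤ, (s = 1 ∨ s = -1) ∧ ∃ δ : ℝ, 0 < δ ∧ ND s S δ := by
  obtain ⟨s, hs, hsx⟩ : ∃ s : ℤ, (s = 1 ∨ s = -1) ∧ 0 < s * x := by
    rcases lt_or_gt_of_ne hx0 with h1 | h1
    · exact ⟨-1, Or.inr rfl, by omega⟩
    · exact ⟨1, Or.inl rfl, by omega⟩
  obtain ⟨δ, _, _, hδ⟩ := ND_exists hs hS
  exact ⟨s, hs, δ, ND_pos hs hS hδ hx hsx, hδ⟩

end Pool.Agent.Q74.CE
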