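import Pool.Agent.Q74.CE.Slide
import Pool.Agent.H165R3.BPE
import Pool.Agent.H563R3.EAErg

set_option autoImplicit false

namespace Pool.Agent.Q74.CE

open Finset Filter Topology MeasureTheory

variable {X : Type} [MeasurableSpace X] {m : Measure X} [IsProbabilityMeasure m] {T : X → X}

/-- Birkhoff averages over `0, …, H - 1`. -/
noncomputable def Av (T : X → X) (f : X → ℝ) (H : ℕ) (y : X) : ℝ := (∑ j ∈ range H, f (T^[j] y)) / H

omit [MeasurableSpace X] in
theorem Av_abs {f : X → ℝ} {C : ℝ} (hC : 0 ≤ C) (hb : ∀ x, |f x| ≤ C) (H : ℕ) (y : X) : |Av T f H y| ≤ C := by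
  unfold Av
  rcases Nat.eq_zero_or_pos H with rfl | hH
  · simpa using hC
  have hH0 : (0 : ℝ) < H := by exact_mod_cast hH
  rw [abs_div, abs_of_pos hH0, div_le_iff₀ hH0]
  refine (abs_sum_le_sum_abs _ _).trans ((sum_le_sum fun j _ => hb _).trans ?_)
  rw [sum_const, card_range, nsmul_eq_mul, mul_comm]

theorem Av_meas (hT : Measurable T) {f : X → ℝ} (hf : Measurable f) (H : ℕ) : Measurable (Av T f H) := by
  unfold Av
  exact (Finset.measurable_sum _ fun j _ => hf.comp (hT.iterate j)).div_const _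

/-- From convergence of the averages of `φ` to a number smaller than `ε`. -/
theorem sum_le_of_tendsto {b : ℕ → ℝ} (hb : ∀ n, 0 ≤ b n) {l ε : ℝ} (hε : 0 < ε) (hl : l < ε / 2)
    (h : Tendsto (fun n : ℕ => (n : ℝ)⁻¹ * ∑ k ∈ range n, b k) atTop (𝓝 l)) :
    ∃ N₀ : ℕ, ∀ N ≥ N₀, ∑ n ∈ Icc 1 N, b n ≤ ε * N := by
  obtain ⟨N₀, hN₀⟩ := eventually_atTop.1 ((tendsto_order.1 h).2 _ hl)
  refine ⟨max N₀ 1, fun N hN => ?_⟩
  have hN1 : 1 ≤ N := (le_max_right _ _).trans hN
  have hN2 : N₀ ≤ N + 1 := ((le_max_left _ _).trans hN).trans (Nat.le_succ _)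
  have h1 := hN₀ (N + 1) hN2
  have hN0 : (0 : ℝ) < (N + 1 : ℕ) := by positivity
  have h2 : ∑ k ∈ range (N + 1), b k ≤ ε / 2 * (N + 1 : ℕ) := by
    rw [inv_mul_lt_iff₀ hN0] at h1
    linarith
  have h3 : ∑ n ∈ Icc 1 N, b n ≤ ∑ k ∈ range (N + 1), b k := by
    apply sum_le_sum_of_subset_of_nonneg
    · intro n hn
      rw [mem_Icc] at hn
      rw [mem_range]
      omega
    · intro n _ _
      exact hb n
  have h4 : (1 : ℝ) ≤ N := by exact_mod_cast hN1
  push_cast at h2
  nlinarith

/-- Bounded functions: almost every orbit is orthogonal to the weights. -/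
theorem bdd_ergodic {W : Set (ℕ → ℝ)} (hW : Flat W) (hT : MeasurePreserving T m m) {f : X → ℝ}
    (hf : Measurable f) {C : ℝ} (hb : ∀ x, |f x| ≤ C) :
    ∀ᵐ x ∂m, ∀ ε : ℝ, 0 < ε → ∃ N₀ : ℕ, ∀ w ∈ W, ∀ N ≥ N₀,
      |∑ n ∈ Icc 1 N, w n * f (T^[n] x)| ≤ ε * N := by
  by_cases hne : Nonempty X
  swap
  · filter_upwards with x
    exact absurd ⟨x⟩ hne
  obtain ⟨x₀⟩ := hne
  have hC : 0 ≤ C := (abs_nonneg _).trans (hb x₀)
  have hle := MeasurableSpace.invariants_le T
  have hcm : Measurable[MeasurableSpace.invariants T] (m[f | MeasurableSpace.invariants T]) :=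
    stronglyMeasurable_condExp.measurable
  set g : X → ℝ := fun x => max (-C) (min C ((m[f | MeasurableSpace.invariants T]) x)) with hg
  have hgm' : Measurable[MeasurableSpace.invariants T] g := by
    exact Measurable.max measurable_const (Measurable.min measurable_const hcm)
  have hgm : Measurable g := hgm'.mono hle le_rfl
  have hgT : ∀ x, g (T x) = g x := fun x =>
    congrFun (MeasurableSpace.comp_eq_of_measurable_invariants hgm') x
  have hgTn : ∀ n x, g (T^[n] x) = g x := by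
    intro n
    induction n with
    | zero => intro x; rfl
    | succ n ih => intro x; rw [Function.iterate_succ_apply, ih, hgT]
  have hgb : ∀ x, |g x| ≤ C := by
    intro x
    rw [abs_le]
    refine ⟨le_max_left _ _, max_le (by linarith) (min_le_left _ _)⟩
  have hbd : ∀ᵐ x ∂m, |(m[f | MeasurableSpace.invariants T]) x| ≤ C := by
    exact ae_bdd_abs_condExp_of_ae_bdd_abs (m := MeasurableSpace.invariants T) (μ := m)
      (f := f) (R := C) (Filter.Eventually.of_forall hb)
  have hgeq : ∀ᵐ x ∂m, g x = (m[f | MeasurableSpace.invariants T]) x := by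
    filter_upwards [hbd] with x hx
    rw [abs_le] at hx
    simp only [hg]
    rw [min_eq_right hx.2, max_eq_right hx.1]
  -- the window means
  set φ : ℕ → X → ℝ := fun H y => |Av T f H y - g y| with hφ
  have hφm : ∀ H, Measurable (φ H) := fun H => ((Av_meas hT.measurable hf H).sub hgm).abs
  have hφb : ∀ H y, |φ H y| ≤ 2 * C := by
    intro H y
    simp only [hφ, abs_abs]
    refine (abs_sub _ _).trans ?_
    have h1 := Av_abs (T := T) hC hb H y
    have h2 := hgb y
    linarith
  have hφ0 : ∀ H y, 0 ≤ φ H y := fun H y => abs_nonneg _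
  have hφi : ∀ H, Integrable (φ H) m := fun H =>
    Integrable.of_bound (hφm H).aestronglyMeasurable (2 * C) (Eventually.of_forall (hφb H))
  have h0 : Tendsto (fun H => ∫ y, φ H y ∂m) atTop (𝓝 0) := by
    have h1 := Pool.Agent.H165R3.BPE.birkhoff hT f hf C hb
    have h2 : Tendsto (fun H => ∫ y, φ H y ∂m) atTop (𝓝 (∫ _y, (0 : ℝ) ∂m)) := by
      apply tendsto_integral_of_dominated_convergence (fun _ => 2 * C)
      · exact fun H => (hφm H).aestronglyMeasurable
      · exact integrable_const _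
      · exact fun H => Eventually.of_forall (hφb H)
      · filter_upwards [h1, hgeq] with x hx hx2
        have h3 : Tendsto (fun H => Av T f H x) atTop (𝓝 (g x)) := by
          rw [hx2]
          refine hx.congr fun n => ?_
          unfold Av
          rw [inv_mul_eq_div]
        have h4 := (h3.sub_const (g x)).abs
        rw [sub_self, abs_zero] at h4
        exact h4
    simpa using h2
  have h1 : ∀ H : ℕ, ∀ᵐ x ∂m, Tendsto (fun n : ℕ => (n : ℝ)⁻¹ * ∑ k ∈ range n, φ H (T^[k] x)) atTop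
      (𝓝 ((m[φ H | MeasurableSpace.invariants T]) x)) := fun H =>
    Pool.Agent.H165R3.BPE.birkhoff hT (φ H) (hφm H) (2 * C) (hφb H)
  -- the conditional expectations have infimum zero
  have h2 : ∀ k : ℕ, ∀ᵐ x ∂m, ∃ H : ℕ, 1 ≤ H ∧ (m[φ H | MeasurableSpace.invariants T]) x < 1 / ((k : ℝ) + 1) := by
    intro k
    set ε : ℝ := 1 / ((k : ℝ) + 1) with hε
    have hε0 : 0 < ε := by positivity
    rw [ae_iff]
    apply le_antisymm _ zero_le
    have h3 : ∀ H : ℕ, 1 ≤ H → m {x | ¬ ∃ H : ℕ, 1 ≤ H ∧ (m[φ H | MeasurableSpace.invariants T]) x < ε} ≤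
        ENNReal.ofReal ((∫ y, φ H y ∂m) / ε) := by
      intro H hH
      have h4 : m {x | ¬ ∃ H : ℕ, 1 ≤ H ∧ (m[φ H | MeasurableSpace.invariants T]) x < ε} ≤
          m {x | ε ≤ (m[φ H | MeasurableSpace.invariants T]) x} := by
        apply measure_mono
        intro x hx
        by_contra hcon
        exact hx ⟨H, hH, not_le.1 hcon⟩
      refine h4.trans ?_
      have h5 : 0 ≤ᵐ[m] (m[φ H | MeasurableSpace.invariants T]) :=
        condExp_nonneg (Eventually.of_forall (hφ0 H))
      have h6 := mul_meas_ge_le_integral_of_nonneg h5 integrable_condExp ε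
      rw [integral_condExp hle] at h6
      have h7 : m.real {x | ε ≤ (m[φ H | MeasurableSpace.invariants T]) x} ≤ (∫ y, φ H y ∂m) / ε := by
        rw [le_div_iff₀ hε0, mul_comm]
        exact h6
      rw [← ofReal_measureReal (measure_ne_top _ _)]
      exact ENNReal.ofReal_le_ofReal h7
    have h4 : Tendsto (fun H : ℕ => ENNReal.ofReal ((∫ y, φ H y ∂m) / ε)) atTop (𝓝 0) := by
      have h5 := ENNReal.tendsto_ofReal (h0.div_const ε)
      simpa using h5
    exact ge_of_tendsto h4 (eventually_atTop.2 ⟨1, h3⟩)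
  rw [← ae_all_iff] at h1 h2
  filter_upwards [h1, h2] with x hx1 hx2
  intro ε hε
  refine hW.orth (g := fun n => f (T^[n] x)) (C := C) (fun n => hb _) (g x) ?_ hε
  intro η hη
  obtain ⟨k, hk⟩ := exists_nat_one_div_lt (show 0 < η / 2 by positivity)
  obtain ⟨H, hH, h3⟩ := hx2 k
  refine ⟨H, hH, ?_⟩
  obtain ⟨N₀, h4⟩ := sum_le_of_tendsto (b := fun k => φ H (T^[k] x)) (fun n => hφ0 _ _) hη (h3.trans hk) (hx1 H)
  refine ⟨N₀, fun N hN => ?_⟩
  refine le_trans (le_of_eq ?_) (h4 N hN)
  refine sum_congr rfl fun n _ => ?_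
  simp only [hφ, Av]
  rw [hgTn]
  congr 3
  refine sum_congr rfl fun j _ => ?_
  rw [← Function.iterate_add_apply, add_comm]

end Pool.Agent.Q74.CE
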