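import Pool.Agent.W36.GK.K21

set_option autoImplicit false

/-! Multiple ergodic averages of commuting transformations with weights of small Gowers norms. -/

namespace Pool.Agent.Q74.CE

open Finset Filter Topology MeasureTheory Pool.Agent.W36.GU Pool.Agent.W36.GV Pool.Agent.W36.GK

theorem sq_sum_le (a : ℕ → ℝ) (X : ℕ) (ha : ∀ n, X < n → a n = 0) :
    (∑ n ∈ Icc 1 X, a n) ^ 2 ≤ 2 * ∑ t ∈ range (X + 1), ∑ n ∈ Icc 1 X, a n * a (n + t) := by
  have h1 : ∑ t ∈ range (X + 1), ∑ n ∈ Icc 1 X, a n * a (n + t) =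
      ∑ n ∈ Icc 1 X, ∑ m ∈ Icc 1 X, if n ≤ m then a n * a m else 0 := by
    rw [sum_comm]
    refine sum_congr rfl fun n hn => ?_
    rw [mem_Icc] at hn
    rw [← sum_filter]
    have h2 : ∑ t ∈ range (X + 1), a n * a (n + t) = ∑ m ∈ Ico n (n + (X + 1)), a n * a m := by
      rw [sum_Ico_eq_sum_range]
      rw [show n + (X + 1) - n = X + 1 by omega]
    rw [h2]
    symm
    apply sum_subset
    · intro m hm
      rw [mem_filter, mem_Icc] at hm
      rw [mem_Ico]
      omega
    · intro m hm hm2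
      rw [mem_Ico] at hm
      rw [mem_filter, mem_Icc] at hm2
      rw [ha m (by omega), mul_zero]
  rw [h1]
  have h2 : (∑ n ∈ Icc 1 X, a n) ^ 2 = ∑ n ∈ Icc 1 X, ∑ m ∈ Icc 1 X, (if n ≤ m then a n * a m else 0) +
      ∑ n ∈ Icc 1 X, ∑ m ∈ Icc 1 X, (if m < n then a n * a m else 0) := by
    rw [sq, sum_mul_sum, ← sum_add_distrib]
    refine sum_congr rfl fun n _ => ?_
    rw [← sum_add_distrib]
    refine sum_congr rfl fun m _ => ?_
    by_cases h : n ≤ m
    · rw [if_pos h, if_neg (by omega), add_zero]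
    · rw [if_neg h, if_pos (by omega), zero_add]
  have h3 : ∑ n ∈ Icc 1 X, ∑ m ∈ Icc 1 X, (if m < n then a n * a m else 0) =
      ∑ n ∈ Icc 1 X, ∑ m ∈ Icc 1 X, (if n ≤ m then a n * a m else 0) - ∑ n ∈ Icc 1 X, a n ^ 2 := by
    rw [sum_comm, ← sum_sub_distrib]
    refine sum_congr rfl fun n hn => ?_
    have h4 : a n ^ 2 = ∑ m ∈ Icc 1 X, if n = m then a n * a m else 0 := by
      rw [sum_ite_eq, if_pos hn, sq]
    rw [h4, ← sum_sub_distrib]
    refine sum_congr rfl fun m _ => ?_
    rcases lt_trichotomy n m with h | h | h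
    · rw [if_pos h, if_pos h.le, if_neg h.ne]; ring
    · subst h; simp
    · rw [if_neg (by omega), if_neg (by omega), if_neg (by omega)]; ring
  have h4 : 0 ≤ ∑ n ∈ Icc 1 X, a n ^ 2 := sum_nonneg fun _ _ => sq_nonneg _
  rw [h2, h3]
  linarith

theorem int_pres {Ω : Type} [MeasurableSpace Ω] {μ : Measure Ω} {R : Ω → Ω} (hR : MeasurePreserving R μ μ)
    {g : Ω → ℝ} (hg : Measurable g) : ∫ x, g x ∂μ = ∫ x, g (R x) ∂μ := by
  conv_lhs => rw [← hR.map_eq]
  rw [integral_map hR.measurable.aemeasurable hg.aestronglyMeasurable]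

/-- a measure preserving action of a commutative monoid -/
structure Act (M : Type) [CommMonoid M] (Ω : Type) [MeasurableSpace Ω] (μ : Measure Ω) where
  φ : M → Ω → Ω
  one : ∀ x, φ 1 x = x
  mul : ∀ a b x, φ (a * b) x = φ a (φ b x)
  pres : ∀ a, MeasurePreserving (φ a) μ μ

section
variable {M : Type} [CommMonoid M] {Ω : Type} [MeasurableSpace Ω] {μ : Measure Ω} [IsProbabilityMeasure μ]

/-- the product of the functions at the time `n` -/
def U (T : Act M Ω μ) {k : ℕ} (A B : Fin k → M) (f : Fin k → Ω → ℝ) (P n : ℕ) (x : Ω) : ℝ :=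
  ∏ i, f i (T.φ (A i ^ n * B i ^ (P - n)) x)

theorem U_meas (T : Act M Ω μ) {k : ℕ} (A B : Fin k → M) {f : Fin k → Ω → ℝ} (hf : ∀ i, Measurable (f i)) (P n : ℕ) :
    Measurable (U T A B f P n) := by
  unfold U
  exact Finset.measurable_prod _ fun i _ => (hf i).comp (T.pres _).measurable

theorem U_abs (T : Act M Ω μ) {k : ℕ} (A B : Fin k → M) {f : Fin k → Ω → ℝ} (hb : ∀ i x, |f i x| ≤ 1) (P n : ℕ) (x : Ω) :
    |U T A B f P n x| ≤ 1 := by
  unfold U
  rw [abs_prod]
  exact prod_le_one (fun i _ => abs_nonneg _) fun i _ => hb i _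

/-- the weighted sum -/
def J (T : Act M Ω μ) {k : ℕ} (A B : Fin k → M) (f : Fin k → Ω → ℝ) (F : ℤ → ℝ) (X P : ℕ) (x : Ω) : ℝ :=
  ∑ n ∈ Icc 1 X, F n * U T A B f P n x

theorem J_meas (T : Act M Ω μ) {k : ℕ} (A B : Fin k → M) {f : Fin k → Ω → ℝ} (hf : ∀ i, Measurable (f i))
    (F : ℤ → ℝ) (X P : ℕ) : Measurable (J T A B f F X P) := by
  unfold J
  exact Finset.measurable_sum _ fun n _ => (U_meas T A B hf P n).const_mul _

theorem J_abs (T : Act M Ω μ) {k : ℕ} (A B : Fin k → M) {f : Fin k → Ω → ℝ} (hb : ∀ i x, |f i x| ≤ 1)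
    {F : ℤ → ℝ} (hF : B1 F) (X P : ℕ) (x : Ω) : |J T A B f F X P x| ≤ X := by
  unfold J
  refine (abs_sum_le_sum_abs _ _).trans ((sum_le_card_nsmul _ _ 1 fun n _ => ?_).trans ?_)
  · rw [abs_mul]
    exact mul_le_one₀ (hF _) (abs_nonneg _) (U_abs T A B hb P n x)
  · rw [Nat.card_Icc, Nat.add_sub_cancel]; simp

theorem sq_int {g : Ω → ℝ} (hg : Measurable g) {C : ℝ} (hC : ∀ x, |g x| ≤ C) : (∫ x, g x ∂μ) ^ 2 ≤ ∫ x, g x ^ 2 ∂μ := by
  have h1 : Integrable g μ := Integrable.of_bound hg.aestronglyMeasurable C (Eventually.of_forall hC)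
  have h2 : Integrable (fun x => g x ^ 2) μ := by
    refine Integrable.of_bound (hg.pow_const 2).aestronglyMeasurable (C ^ 2) (Eventually.of_forall fun x => ?_)
    rw [Real.norm_eq_abs, abs_pow]
    exact pow_le_pow_left₀ (abs_nonneg _) (hC x) 2
  set c := ∫ x, g x ∂μ with hc
  have h3 : 0 ≤ ∫ x, (g x - c) ^ 2 ∂μ := integral_nonneg fun x => sq_nonneg _
  have h4 : ∫ x, (g x - c) ^ 2 ∂μ = ∫ x, g x ^ 2 ∂μ - c ^ 2 := by
    have h5 : ∀ x, (g x - c) ^ 2 = g x ^ 2 - 2 * c * g x + c ^ 2 := fun x => by ring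
    simp only [h5]
    have h6 : Integrable (fun x => 2 * c * g x) μ := h1.const_mul _
    have h7 : Integrable (fun x => g x ^ 2 - 2 * c * g x) μ := h2.sub h6
    rw [integral_add h7 (integrable_const _), integral_sub h2 h6, integral_const_mul, ← hc]
    simp
    ring
  linarith

/-- van der Corput -/
theorem vdc (T : Act M Ω μ) {k : ℕ} (A B : Fin k → M) {f : Fin k → Ω → ℝ} (hf : ∀ i, Measurable (f i))
    (hb : ∀ i x, |f i x| ≤ 1) {F : ℤ → ℝ} (hF : B1 F) {X : ℕ} (hs : Sup F X) (P : ℕ) :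
    ∫ x, (J T A B f F X P x) ^ 2 ∂μ ≤ 2 * ∑ t ∈ range (X + 1), |∫ x, (∑ n ∈ Icc 1 X, De t F n *
      (U T A B f P n x * U T A B f P (n + t) x)) ∂μ| := by
  have h1 : ∀ x, (J T A B f F X P x) ^ 2 ≤ 2 * ∑ t ∈ range (X + 1), ∑ n ∈ Icc 1 X, De t F n *
      (U T A B f P n x * U T A B f P (n + t) x) := by
    intro x
    have h2 := sq_sum_le (fun n => F n * U T A B f P n x) X (fun n hn => by
      have : F n = 0 := by
        by_contra h
        have := (hs _ h).2
        omega
      rw [this, zero_mul])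
    refine h2.trans (le_of_eq ?_)
    congr 1
    refine sum_congr rfl fun t _ => sum_congr rfl fun n _ => ?_
    unfold De
    push_cast
    ring
  have hm : ∀ t : ℕ, Measurable fun x => ∑ n ∈ Icc 1 X, De t F n * (U T A B f P n x * U T A B f P (n + t) x) := fun t =>
    Finset.measurable_sum _ fun n _ => ((U_meas T A B hf P n).mul (U_meas T A B hf P (n + t))).const_mul _
  have hbd : ∀ (t : ℕ) (x : Ω), ‖∑ n ∈ Icc 1 X, De t F n * (U T A B f P n x * U T A B f P (n + t) x)‖ ≤ X := by
    intro t x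
    rw [Real.norm_eq_abs]
    refine (abs_sum_le_sum_abs _ _).trans ((sum_le_card_nsmul _ _ 1 fun n _ => ?_).trans ?_)
    · rw [abs_mul, abs_mul]
      exact mul_le_one₀ (De_B1 hF t _) (by positivity)
        (mul_le_one₀ (U_abs T A B hb P n x) (abs_nonneg _) (U_abs T A B hb P (n + t) x))
    · rw [Nat.card_Icc, Nat.add_sub_cancel]; simp
  have hi : ∀ t : ℕ, Integrable (fun x => ∑ n ∈ Icc 1 X, De t F n * (U T A B f P n x * U T A B f P (n + t) x)) μ :=
    fun t => Integrable.of_bound (hm t).aestronglyMeasurable X (Eventually.of_forall (hbd t))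
  calc ∫ x, (J T A B f F X P x) ^ 2 ∂μ
      ≤ ∫ x, 2 * ∑ t ∈ range (X + 1), ∑ n ∈ Icc 1 X, De t F n * (U T A B f P n x * U T A B f P (n + t) x) ∂μ := by
        apply integral_mono_of_nonneg (Eventually.of_forall fun x => sq_nonneg _)
          ((integrable_finsetSum _ fun t _ => hi t).const_mul 2) (Eventually.of_forall h1)
    _ = 2 * ∑ t ∈ range (X + 1), ∫ x, (∑ n ∈ Icc 1 X, De t F n * (U T A B f P n x * U T A B f P (n + t) x)) ∂μ := by
        rw [integral_const_mul, integral_finsetSum _ fun t _ => hi t]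
    _ ≤ _ := by
        apply mul_le_mul_of_nonneg_left _ zero_le_two
        exact sum_le_sum fun t _ => le_abs_self _

/-- one function less -/
theorem elim (T : Act M Ω μ) {k : ℕ} (A B : Fin (k + 1) → M) {f : Fin (k + 1) → Ω → ℝ} (hf : ∀ i, Measurable (f i))
    (hb : ∀ i x, |f i x| ≤ 1) {F : ℤ → ℝ} (hF : B1 F) {X : ℕ} {P : ℕ} (hP : ∀ n : ℤ, F n ≠ 0 → n ≤ P) (t : ℕ) :
    ∃ (A' B' : Fin k → M) (g : Fin k → Ω → ℝ), (∀ i, Measurable (g i)) ∧ (∀ i x, |g i x| ≤ 1) ∧
      (∫ x, (∑ n ∈ Icc 1 X, De t F n * (U T A B f P n x * U T A B f P (n + t) x)) ∂μ) ^ 2 ≤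
        ∫ x, (J T A' B' g (De t F) X (P - t) x) ^ 2 ∂μ := by
  -- the product functions
  set G : Fin (k + 1) → Ω → ℝ := fun i x => f i (T.φ (B i ^ t) x) * f i (T.φ (A i ^ t) x) with hG
  have hGm : ∀ i, Measurable (G i) := fun i =>
    ((hf i).comp (T.pres _).measurable).mul ((hf i).comp (T.pres _).measurable)
  have hGb : ∀ i x, |G i x| ≤ 1 := by
    intro i x
    simp only [hG]
    rw [abs_mul]
    exact mul_le_one₀ (hb _ _) (abs_nonneg _) (hb _ _)
  set l : Fin (k + 1) := Fin.last k with hl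
  set A' : Fin k → M := fun i => A i.castSucc * B l with hA'
  set B' : Fin k → M := fun i => B i.castSucc * A l with hB'
  set g : Fin k → Ω → ℝ := fun i => G i.castSucc with hg
  have hgm : ∀ i, Measurable (g i) := fun i => hGm _
  have hgb : ∀ i x, |g i x| ≤ 1 := fun i x => hGb _ _
  refine ⟨A', B', g, hgm, hgb, ?_⟩
  -- the product of two
  have h1 : ∀ n : ℕ, n + t ≤ P → ∀ x, U T A B f P n x * U T A B f P (n + t) x = U T A B G (P - t) n x := by
    intro n hn x
    unfold U
    rw [← prod_mul_distrib]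
    refine prod_congr rfl fun i _ => ?_
    simp only [hG]
    rw [← T.mul, ← T.mul]
    have e1 : B i ^ t * (A i ^ n * B i ^ (P - t - n)) = A i ^ n * B i ^ (P - n) := by
      rw [mul_left_comm, ← pow_add, show t + (P - t - n) = P - n by omega]
    have e2 : A i ^ t * (A i ^ n * B i ^ (P - t - n)) = A i ^ (n + t) * B i ^ (P - (n + t)) := by
      rw [← mul_assoc, ← pow_add, show t + n = n + t by omega, show P - t - n = P - (n + t) by omega]
    rw [e1, e2]
  -- the integrals
  set h : Ω → ℝ := fun x => G l (T.φ ((A l * B l) ^ (P - t)) x) with hh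
  have hhm : Measurable h := (hGm l).comp (T.pres _).measurable
  have hhb : ∀ x, |h x| ≤ 1 := fun x => hGb _ _
  have h2 : ∀ n : ℕ, n + t ≤ P → ∫ x, U T A B G (P - t) n x ∂μ = ∫ x, h x * U T A' B' g (P - t) n x ∂μ := by
    intro n hn
    have h4 : ∫ x, U T A B G (P - t) n x ∂μ =
        ∫ x, U T A B G (P - t) n (T.φ (B l ^ n * A l ^ (P - t - n)) x) ∂μ :=
      int_pres (T.pres _) (U_meas T A B hGm (P - t) n)
    rw [h4]
    congr 1
    funext x
    unfold U
    rw [Fin.prod_univ_castSucc, mul_comm]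
    congr 1
    · simp only [hh]
      rw [← T.mul]
      congr 2
      have : A l ^ n * B l ^ (P - t - n) * (B l ^ n * A l ^ (P - t - n)) = (A l * B l) ^ (P - t) := by
        have e : P - t = n + (P - t - n) := by omega
        conv_rhs => rw [e, pow_add, mul_pow, mul_pow]
        simp only [mul_assoc, mul_comm, mul_left_comm]
      exact this
    · refine prod_congr rfl fun i _ => ?_
      simp only [hg, hA', hB']
      rw [← T.mul]
      congr 2
      rw [mul_pow, mul_pow]
      simp only [mul_assoc, mul_comm, mul_left_comm]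
  -- together
  have h3 : ∫ x, (∑ n ∈ Icc 1 X, De t F n * (U T A B f P n x * U T A B f P (n + t) x)) ∂μ =
      ∫ x, h x * J T A' B' g (De t F) X (P - t) x ∂μ := by
    have hUi : ∀ n, Integrable (fun x => U T A B f P n x * U T A B f P (n + t) x) μ := fun n =>
      Integrable.of_bound ((U_meas T A B hf P n).mul (U_meas T A B hf P (n + t))).aestronglyMeasurable 1
        (Eventually.of_forall fun x => by
          rw [norm_mul]
          exact mul_le_one₀ (U_abs T A B hb P n x) (norm_nonneg _) (U_abs T A B hb P (n + t) x))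
    have hUi' : ∀ n, Integrable (fun x => h x * U T A' B' g (P - t) n x) μ := fun n =>
      Integrable.of_bound (hhm.mul (U_meas T A' B' hgm (P - t) n)).aestronglyMeasurable 1
        (Eventually.of_forall fun x => by
          rw [norm_mul]
          exact mul_le_one₀ (hhb x) (norm_nonneg _) (U_abs T A' B' hgb (P - t) n x))
    rw [integral_finsetSum _ fun n _ => (hUi n).const_mul _]
    have h5 : ∀ x, h x * J T A' B' g (De t F) X (P - t) x =
        ∑ n ∈ Icc 1 X, De t F n * (h x * U T A' B' g (P - t) n x) := by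
      intro x
      unfold J
      rw [mul_sum]
      exact sum_congr rfl fun n _ => by ring
    simp only [h5]
    rw [integral_finsetSum _ fun n _ => (hUi' n).const_mul _]
    refine sum_congr rfl fun n _ => ?_
    rw [integral_const_mul, integral_const_mul]
    by_cases hn : De t F n = 0
    · rw [hn, zero_mul, zero_mul]
    · have hn2 : n + t ≤ P := by
        have h6 : F ((n : ℤ) + t) ≠ 0 := right_ne_zero_of_mul hn
        have := hP _ h6
        omega
      congr 1
      rw [← h2 n hn2]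
      congr 1
      funext x
      exact h1 n hn2 x
  rw [h3]
  have hJm := J_meas T A' B' hgm (De t F) X (P - t)
  have hJb := J_abs T A' B' hgb (De_B1 hF t) X (P - t)
  refine (sq_int (hhm.mul hJm) (C := X) fun x => ?_).trans ?_
  · simp only [Pi.mul_apply]
    rw [abs_mul]
    calc |h x| * |J T A' B' g (De t F) X (P - t) x| ≤ 1 * X := mul_le_mul (hhb x) (hJb x) (abs_nonneg _) zero_le_one
      _ = X := one_mul _
  · have hint : Integrable (fun x => J T A' B' g (De t F) X (P - t) x ^ 2) μ := by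
      refine Integrable.of_bound (hJm.pow_const 2).aestronglyMeasurable ((X : ℝ) ^ 2) (Eventually.of_forall fun x => ?_)
      rw [Real.norm_eq_abs, abs_pow]
      exact pow_le_pow_left₀ (abs_nonneg _) (hJb x) 2
    apply integral_mono_of_nonneg (Eventually.of_forall fun x => sq_nonneg _) hint (Eventually.of_forall fun x => ?_)
    simp only [Pi.mul_apply, mul_pow]
    have : h x ^ 2 ≤ 1 := by
      rw [← sq_abs]
      exact pow_le_one₀ (abs_nonneg _) (hhb x)
    nlinarith [sq_nonneg (J T A' B' g (De t F) X (P - t) x)]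

end

theorem sum_cast (F : ℤ → ℝ) (X : ℕ) : ∑ n ∈ Icc 1 X, F n = ∑ n ∈ Icc (1 : ℤ) X, F n := by
  induction X with
  | zero => simp
  | succ X ih =>
    rw [sum_Icc_succ_top (by omega), ih]
    have : Icc (1 : ℤ) ((X + 1 : ℕ) : ℤ) = insert ((X + 1 : ℕ) : ℤ) (Icc (1 : ℤ) X) := by
      ext n
      simp only [mem_Icc, mem_insert]
      push_cast
      omega
    rw [this, sum_insert (by simp), add_comm]

/-- **Multiple averages.** -/
theorem multi (k : ℕ) : ∀ ε : ℝ, 0 < ε → ∃ δ : ℝ, 0 < δ ∧ ∃ X₀ : ℕ, ∀ X : ℕ, X₀ ≤ X → ∀ F : ℤ → ℝ, B1 F → Sup F X →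
    GN (k + 1) F X ≤ δ * (X : ℝ) ^ (k + 2) → ∀ P : ℕ, (∀ n : ℤ, F n ≠ 0 → n ≤ P) →
    ∀ (M : Type) [CommMonoid M] (Ω : Type) [MeasurableSpace Ω] (μ : Measure Ω) [IsProbabilityMeasure μ]
      (T : Act M Ω μ) (A B : Fin k → M) (f : Fin k → Ω → ℝ), (∀ i, Measurable (f i)) → (∀ i x, |f i x| ≤ 1) →
      ∫ x, (J T A B f F X P x) ^ 2 ∂μ ≤ ε * (X : ℝ) ^ 2 := by
  induction k with
  | zero =>
    intro ε hε
    refine ⟨ε, hε, 0, fun X _ F hF hs hGN P _ M _ Ω _ μ _ T A B f _ _ => ?_⟩
    have h1 : ∀ x, J T A B f F X P x = GN 0 F X := by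
      intro x
      unfold J U GN
      simp only [univ_eq_empty, prod_empty, mul_one]
      exact sum_cast F X
    simp only [h1]
    rw [integral_const]
    simp only [probReal_univ, one_smul]
    rw [← GN_one hs]
    exact hGN
  | succ k ih =>
    intro ε hε
    obtain ⟨δ₁, hδ₁, X₁, h⟩ := ih ((ε / 8) ^ 2) (by positivity)
    refine ⟨δ₁ * ε / 4, by positivity, max X₁ 1, fun X hX F hF hs hGN P hP M _ Ω _ μ _ T A B f hf hb => ?_⟩
    have hX1 : X₁ ≤ X := (le_max_left _ _).trans hX
    have hX2 : 1 ≤ X := (le_max_right _ _).trans hX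
    have hXr : (1 : ℝ) ≤ X := by exact_mod_cast hX2
    have hX0 : (0 : ℝ) < X := by linarith
    refine (vdc T A B hf hb hF hs P).trans ?_
    set b : ℕ → ℝ := fun t => |∫ x, (∑ n ∈ Icc 1 X, De t F n * (U T A B f P n x * U T A B f P (n + t) x)) ∂μ| with hb'
    have h1 : ∑ t ∈ range (X + 1), b t ≤ (range (X + 1)).card * (ε / 8 * X) +
        (∑ t ∈ range (X + 1), GN (k + 1) (De t F) X) / (δ₁ * (X : ℝ) ^ (k + 2)) * X := by
      apply markov (range (X + 1)) (fun t => GN (k + 1) (De t F) X) b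
      · intro t _
        exact GN_nonneg k (De_sup hs t)
      · positivity
      · positivity
      · intro t _
        simp only [hb']
        rw [← Real.norm_eq_abs]
        have := norm_integral_le_of_norm_le_const (μ := μ) (C := X)
          (f := fun x => ∑ n ∈ Icc 1 X, De t F n * (U T A B f P n x * U T A B f P (n + t) x))
          (Eventually.of_forall fun x => by
            rw [Real.norm_eq_abs]
            refine (abs_sum_le_sum_abs _ _).trans ((sum_le_card_nsmul _ _ 1 fun n _ => ?_).trans ?_)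
            · rw [abs_mul, abs_mul]
              exact mul_le_one₀ (De_B1 hF t _) (by positivity)
                (mul_le_one₀ (U_abs T A B hb P n x) (abs_nonneg _) (U_abs T A B hb P (n + t) x))
            · rw [Nat.card_Icc, Nat.add_sub_cancel]; simp)
        simpa using this
      · positivity
      · intro t _ ht
        obtain ⟨A', B', g, hg, hgb, h2⟩ := elim T A B hf hb hF (X := X) hP t
        have h3 := h X hX1 (De t F) (De_B1 hF t) (De_sup hs t) ht (P - t) (fun n hn => by
          have h6 : F (n + t) ≠ 0 := right_ne_zero_of_mul hn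
          have := hP _ h6
          have h7 : F n ≠ 0 := left_ne_zero_of_mul hn
          have h8 := hs _ h7
          omega) M Ω μ T A' B' g hg hgb
        have h4 := h2.trans h3
        rw [← mul_pow] at h4
        exact abs_le_of_sq_le_sq h4 (by positivity)
    have h2 : ∑ t ∈ range (X + 1), GN (k + 1) (De t F) X ≤ GN (k + 1 + 1) F X := by
      rw [GN]
      have h3 : ∑ t ∈ range (X + 1), GN (k + 1) (De t F) X =
          ∑ t ∈ (range (X + 1)).map ⟨fun t : ℕ => (t : ℤ), Nat.cast_injective⟩, GN (k + 1) (De t F) X := by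
        rw [sum_map]
        rfl
      rw [h3]
      apply sum_le_sum_of_subset_of_nonneg
      · intro t ht
        rw [Finset.mem_map] at ht
        obtain ⟨n, hn, rfl⟩ := ht
        rw [mem_range] at hn
        rw [mem_Icc]
        simp only [Function.Embedding.coeFn_mk]
        omega
      · intro t _ _
        exact GN_nonneg k (De_sup hs t)
    have h3 : (∑ t ∈ range (X + 1), GN (k + 1) (De t F) X) / (δ₁ * (X : ℝ) ^ (k + 2)) * X ≤ ε / 4 * X ^ 2 := by
      have h4 : ∑ t ∈ range (X + 1), GN (k + 1) (De t F) X ≤ δ₁ * ε / 4 * (X : ℝ) ^ (k + 1 + 2) := h2.trans hGN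
      calc (∑ t ∈ range (X + 1), GN (k + 1) (De t F) X) / (δ₁ * (X : ℝ) ^ (k + 2)) * X
          ≤ (δ₁ * ε / 4 * (X : ℝ) ^ (k + 1 + 2)) / (δ₁ * (X : ℝ) ^ (k + 2)) * X := by
            apply mul_le_mul_of_nonneg_right _ hX0.le
            apply div_le_div_of_nonneg_right h4 (by positivity)
        _ = ε / 4 * X ^ 2 := by
            have : (X : ℝ) ^ (k + 1 + 2) = (X : ℝ) ^ (k + 2) * X := by ring
            rw [this]
            field_simp
    rw [card_range] at h1
    push_cast at h1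
    have h4 : ((X : ℝ) + 1) * (ε / 8 * X) ≤ ε / 4 * X ^ 2 := by nlinarith [mul_pos hε hX0]
    nlinarith

end Pool.Agent.Q74.CE
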