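import Pool.Agent.Q74.CE.Multi
import Pool.Agent.Q74.CE.Cyc

set_option autoImplicit false

namespace Pool.Agent.Q74.CE

open Finset Filter Topology MeasureTheory Pool.Agent.W36.GU Pool.Agent.W36.GV Pool.Agent.W36.GK
open Pool.Agent.H499R2.ND (Td Inv)

section
variable {Ω : Type} [MeasurableSpace Ω] {μ : Measure Ω}

theorem act_exists {k : ℕ} {R : Fin k → Ω → Ω} (hR : ∀ i, MeasurePreserving (R i) μ μ)
    (hc : ∀ i j x, R i (R j x) = R j (R i x)) : ∃ (M : Type) (_ : CommMonoid M) (T : Act M Ω μ) (a : Fin k → M),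
    ∀ i n x, T.φ (a i ^ n) x = (R i)^[n] x := by
  set s : Set (Function.End Ω) := Set.range (fun i => (R i : Function.End Ω)) with hs
  have hcomm : ∀ a ∈ s, ∀ b ∈ s, a * b = b * a := by
    rintro _ ⟨i, rfl⟩ _ ⟨j, rfl⟩
    funext x
    exact hc i j x
  have hcl : ∀ a b : Submonoid.closure s, a * b = b * a := by
    intro a b
    have := Submonoid.isMulCommutative_closure (Function.End Ω) hcomm
    exact this.is_comm.comm a b
  letI inst : CommMonoid (Submonoid.closure s) := { (inferInstance : Monoid (Submonoid.closure s)) with mul_comm := hcl }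
  have hpres : ∀ g : Function.End Ω, g ∈ Submonoid.closure s → MeasurePreserving g μ μ := by
    intro g hg
    induction hg using Submonoid.closure_induction with
    | mem x hx =>
      obtain ⟨i, rfl⟩ := hx
      exact hR i
    | one => exact MeasurePreserving.id μ
    | mul x y _ _ hx hy => exact hx.comp hy
  refine ⟨Submonoid.closure s, inst, ⟨fun g x => (g : Function.End Ω) x, fun x => rfl, fun a b x => rfl,
    fun g => hpres g g.2⟩, fun i => ⟨R i, Submonoid.subset_closure ⟨i, rfl⟩⟩, fun i n x => ?_⟩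
  induction n generalizing x with
  | zero => rfl
  | succ n ih =>
    rw [Function.iterate_succ_apply, ← ih (R i x)]
    rfl

end

/-- **Multiple averages with the weights of the invariant sets.** -/
theorem multi_inv (k : ℕ) {s : ℤ} (hs : s = 1 ∨ s = -1) {ε : ℝ} (hε : 0 < ε) : ∃ N₀ : ℕ, ∀ N : ℕ, N₀ ≤ N →
    ∀ S : Set ℤ, Inv 1 S → ∀ δ : ℝ, ND s S δ →
    ∀ (Ω : Type) [MeasurableSpace Ω] (μ : Measure Ω) [IsProbabilityMeasure μ] (R : Fin k → Ω → Ω),
      (∀ i, MeasurePreserving (R i) μ μ) → (∀ i j x, R i (R j x) = R j (R i x)) →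
      ∀ f : Fin k → Ω → ℝ, (∀ i, Measurable (f i)) → (∀ i x, |f i x| ≤ 1) →
      ∫ x, (∑ n ∈ Icc 1 N, wt s S δ n * ∏ i, f i ((R i)^[n] x)) ^ 2 ∂μ ≤ ε * (N : ℝ) ^ 2 := by
  obtain ⟨δ₁, hδ₁, X₁, h⟩ := multi k ε hε
  obtain ⟨N₀, h2⟩ := Pool.Agent.Results.MP_2d22f3_nt.GowersNorms.result.1 s hs k δ₁ hδ₁
  refine ⟨max X₁ N₀, fun N hN S hS δ hδ Ω _ μ _ R hR hc f hf hb => ?_⟩
  obtain ⟨δ', hδ', h3⟩ := h2 S (inv_C hS)
  have he : δ' = δ := tendsto_nhds_unique hδ' hδ
  subst he
  have h4 := (h3 N ((le_max_right _ _).trans hN) 0 N (Nat.zero_le _) le_rfl).1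
  rw [Pool.Agent.Results.MP_2d22f3_nt.GowersNorms.Gowers_eq] at h4
  set F := Pool.Agent.Results.MP_2d22f3_nt.GowersNorms.Balanced s S δ' 0 N with hF
  have hFn : ∀ n : ℕ, 1 ≤ n → n ≤ N → F n = wt s S δ' n := by
    intro n h5 h6
    simp only [hF, Pool.Agent.Results.MP_2d22f3_nt.GowersNorms.Balanced, wt]
    rw [if_pos ⟨by push_cast; omega, by omega⟩]
  have hsup : Sup F N := by
    intro n hn
    simp only [hF, Pool.Agent.Results.MP_2d22f3_nt.GowersNorms.Balanced] at hn
    split_ifs at hn with h5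
    · push_cast at h5; omega
    · exact absurd rfl hn
  have hB1 : B1 F := by
    intro n
    by_cases h5 : 1 ≤ n ∧ n ≤ N
    · obtain ⟨m, rfl⟩ : ∃ m : ℕ, n = m := ⟨n.toNat, by omega⟩
      rw [hFn m (by omega) (by omega)]
      exact wt_abs hs hS hδ m
    · have : F n = 0 := by
        by_contra h6
        exact h5 (hsup n h6)
      rw [this]; simp
  obtain ⟨M, inst, T, a, ha⟩ := act_exists hR hc
  have h5 := h N ((le_max_left _ _).trans hN) F hB1 hsup h4 N (fun n hn => (hsup n hn).2) M Ω μ T a (fun _ => 1) f hf hb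
  refine le_trans (le_of_eq ?_) h5
  congr 1
  funext x
  congr 1
  unfold J U
  refine sum_congr rfl fun n hn => ?_
  rw [mem_Icc] at hn
  rw [hFn n hn.1 hn.2]
  congr 1
  refine prod_congr rfl fun i _ => ?_
  rw [one_pow, mul_one, ha]

end Pool.Agent.Q74.CE
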