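import Pool.Agent.Q74.CE.Erg2
import Pool.Agent.H499R2.HL.E

set_option autoImplicit false

namespace Pool.Agent.Q74.CE

open Finset Filter Topology MeasureTheory
open Pool.Agent.H499R2.ND (Dn cnt cnt_eq cnt_mono cnt_or cnt_le cntn_nonneg zd_iff)

open Classical in
/-- the indicator function of a property, minus its density -/
noncomputable def pw (P : ℕ → Prop) (l : ℝ) (n : ℕ) : ℝ := (if P n then 1 else 0) - l

open Classical in
/-- Properties which rarely change from `n` to `n + 1` give flat weights. -/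
theorem flat_next {P : ℕ → Prop} {l : ℝ} (h0 : 0 ≤ l) (h1 : l ≤ 1) (h : Dn P l)
    (h' : Dn (fun n => ¬ (P n ↔ P (n + 1))) 0) : Flat {pw P l} where
  bdd := by
    rintro w rfl n
    unfold pw
    rw [abs_le]
    split_ifs <;> constructor <;> linarith
  win := by
    intro H ε hε
    obtain ⟨N₀, hN₀⟩ := eventually_atTop.1 ((zd_iff.1 h') (ε / (4 * (H + 1))) (by positivity))
    refine ⟨max (max N₀ H) 1, fun N hN => ?_⟩
    have hN1 : N₀ ≤ N := (le_max_left _ _).trans ((le_max_left _ _).trans hN)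
    have hN2 : H ≤ N := (le_max_right _ _).trans ((le_max_left _ _).trans hN)
    have hN3 : 1 ≤ N := (le_max_right _ _).trans hN
    set B : Finset ℕ := {n ∈ Icc 1 N | ∃ j < H, ¬ (P (n + j) ↔ P (n + j + 1))} with hB
    have hsub : B ⊆ (range H).biUnion fun j => ({n ∈ Icc 1 N | ¬ (P (n + j) ↔ P (n + j + 1))} : Finset ℕ) := by
      intro n hn
      rw [hB, mem_filter] at hn
      obtain ⟨hn, j, hj, hjn⟩ := hn
      rw [mem_biUnion]
      exact ⟨j, mem_range.2 hj, mem_filter.2 ⟨hn, hjn⟩⟩
    have hcard : ∀ j ∈ range H, #{n ∈ Icc 1 N | ¬ (P (n + j) ↔ P (n + j + 1))} ≤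
        #{n ∈ Icc 1 (N + H) | ¬ (P n ↔ P (n + 1))} := by
      intro j hj
      rw [mem_range] at hj
      apply card_le_card_of_injOn (fun n => n + j)
      · intro n hn
        rw [mem_coe, mem_filter, mem_Icc] at hn ⊢
        dsimp only
        exact ⟨by omega, hn.2⟩
      · intro a _ b _ hab
        simpa using hab
    have h2 : #B ≤ H * #{n ∈ Icc 1 (N + H) | ¬ (P n ↔ P (n + 1))} := by
      refine (card_le_card hsub).trans (card_biUnion_le.trans ?_)
      refine (sum_le_sum hcard).trans ?_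
      rw [sum_const, card_range, smul_eq_mul]
    have h3 := hN₀ (N + H) (hN1.trans (Nat.le_add_right _ _))
    rw [cnt_eq] at h3
    refine ⟨B, ?_, ?_⟩
    · have h4 : (#B : ℝ) ≤ H * #{n ∈ Icc 1 (N + H) | ¬ (P n ↔ P (n + 1))} := by exact_mod_cast h2
      have hHN : (H : ℝ) ≤ N := by exact_mod_cast hN2
      have hH0 : (0 : ℝ) ≤ H := Nat.cast_nonneg H
      have hN0 : (0 : ℝ) ≤ N := Nat.cast_nonneg N
      have h5 : ((#{n ∈ Icc 1 (N + H) | ¬ (P n ↔ P (n + 1))} : ℕ) : ℝ) ≤ ε / (4 * (H + 1)) * (2 * N) := by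
        refine h3.trans ?_
        push_cast
        apply mul_le_mul_of_nonneg_left _ (by positivity)
        linarith
      calc (#B : ℝ) ≤ H * #{n ∈ Icc 1 (N + H) | ¬ (P n ↔ P (n + 1))} := h4
        _ ≤ (H + 1) * (ε / (4 * (H + 1)) * (2 * N)) := by
            apply mul_le_mul (by linarith) h5 (Nat.cast_nonneg _) (by positivity)
        _ = ε / 2 * N := by field_simp; ring
        _ ≤ ε * N := by nlinarith
    · rintro w rfl n hn hnB j hj
      have h4 : ∀ i < H, (P (n + i) ↔ P (n + i + 1)) := by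
        intro i hi
        by_contra hcon
        exact hnB (mem_filter.2 ⟨hn, i, hi, hcon⟩)
      have h5 : ∀ i ≤ j, (P n ↔ P (n + i)) := by
        intro i
        induction i with
        | zero => intro _; exact Iff.rfl
        | succ i ih =>
          intro hi
          exact (ih (by omega)).trans (h4 i (by omega))
      unfold pw
      by_cases h6 : P n
      · rw [if_pos h6, if_pos ((h5 j le_rfl).1 h6)]
      · rw [if_neg h6, if_neg (fun h7 => h6 ((h5 j le_rfl).2 h7))]
  mean := by
    intro ε hε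
    obtain ⟨N₀, hN₀⟩ := Metric.tendsto_atTop.1 h ε hε
    refine ⟨max N₀ 1, ?_⟩
    rintro w rfl N hN
    have hN1 : 1 ≤ N := (le_max_right _ _).trans hN
    have hN0 : (0 : ℝ) < N := by exact_mod_cast hN1
    have h2 := hN₀ N ((le_max_left _ _).trans hN)
    have e : ∑ n ∈ Icc 1 N, pw P l n = cnt P N - l * N := by
      unfold pw
      rw [sum_sub_distrib, sum_const, Nat.card_Icc, Nat.add_sub_cancel, nsmul_eq_mul, cnt_eq, sum_boole]
      ring
    rw [Real.dist_eq] at h2
    have e2 : cnt P N - l * N = (cnt P N / N - l) * N := by field_simp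
    rw [e, e2, abs_mul, abs_of_pos hN0]
    exact mul_le_mul_of_nonneg_right h2.le hN0.le

variable {X : Type} [MeasurableSpace X] {m : Measure X} [IsProbabilityMeasure m] {T : X → X}

open Classical in
/-- Sums along orbits over the integers with a property which rarely changes. -/
theorem prop_ergodic (hT : MeasurePreserving T m m) {f : X → ℝ} (hf : Integrable f m) {P : ℕ → Prop} {l : ℝ}
    (h0 : 0 ≤ l) (h1 : l ≤ 1) (h : Dn P l) (h' : Dn (fun n => ¬ (P n ↔ P (n + 1))) 0) :
    ∀ᵐ x ∂m, Tendsto (fun N : ℕ => (∑ n ∈ Icc 1 N with P n, f (T^[n] x)) / N) atTop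
      (𝓝 (l * (m[f | MeasurableSpace.invariants T]) x)) := by
  filter_upwards [l1_ergodic (flat_next h0 h1 h h') hT hf, l1_birkhoff hT hf] with x h2 h3
  have h4 : Tendsto (fun N : ℕ => (∑ n ∈ Icc 1 N, pw P l n * f (T^[n] x)) / N) atTop (𝓝 0) := by
    rw [Metric.tendsto_atTop]
    intro ε hε
    obtain ⟨N₀, h5⟩ := h2 (ε / 2) (by positivity)
    refine ⟨max N₀ 1, fun N hN => ?_⟩
    have hN1 : 1 ≤ N := (le_max_right _ _).trans hN
    have hN0 : (0 : ℝ) < N := by exact_mod_cast hN1
    have h6 := h5 _ rfl N ((le_max_left _ _).trans hN)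
    rw [Real.dist_eq, sub_zero, abs_div, abs_of_pos hN0, div_lt_iff₀ hN0]
    nlinarith
  have h5 := h4.add (h3.const_mul l)
  rw [zero_add] at h5
  refine h5.congr fun N => ?_
  have e : ∑ n ∈ Icc 1 N with P n, f (T^[n] x) = ∑ n ∈ Icc 1 N, pw P l n * f (T^[n] x) +
      l * ∑ n ∈ Icc 1 N, f (T^[n] x) := by
    rw [sum_filter, mul_sum, ← sum_add_distrib]
    refine sum_congr rfl fun n _ => ?_
    unfold pw
    split_ifs <;> ring
  rw [e]
  ring

open Classical in
/-- The same for monotone families, with one exceptional set. -/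
theorem family_ergodic (hT : MeasurePreserving T m m) {f : X → ℝ} (hf : Integrable f m) {P : ℝ → ℕ → Prop}
    {F : ℝ → ℝ} (hF : Continuous F) (h0 : ∀ z, 0 ≤ F z) (h1 : ∀ z, F z ≤ 1) (h : ∀ z, Dn (P z) (F z))
    (h' : ∀ z, Dn (fun n => ¬ (P z n ↔ P z (n + 1))) 0) (hmono : ∀ y z n, y ≤ z → P y n → P z n) :
    ∀ᵐ x ∂m, ∀ z : ℝ, Tendsto (fun N : ℕ => (∑ n ∈ Icc 1 N with P z n, f (T^[n] x)) / N) atTop
      (𝓝 (F z * (m[f | MeasurableSpace.invariants T]) x)) := by
  -- nonnegative functions
  have key : ∀ g : X → ℝ, Integrable g m → (∀ x, 0 ≤ g x) → ∀ᵐ x ∂m, ∀ z : ℝ,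
      Tendsto (fun N : ℕ => (∑ n ∈ Icc 1 N with P z n, g (T^[n] x)) / N) atTop
        (𝓝 (F z * (m[g | MeasurableSpace.invariants T]) x)) := by
    intro g hg hg0
    have h2 : ∀ q : ℚ, ∀ᵐ x ∂m, Tendsto (fun N : ℕ => (∑ n ∈ Icc 1 N with P q n, g (T^[n] x)) / N) atTop
        (𝓝 (F q * (m[g | MeasurableSpace.invariants T]) x)) := fun q =>
      prop_ergodic hT hg (h0 q) (h1 q) (h q) (h' q)
    rw [← ae_all_iff] at h2
    filter_upwards [h2] with x hx z
    set E := (m[g | MeasurableSpace.invariants T]) x with hE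
    have hm : ∀ y z : ℝ, y ≤ z → ∀ N : ℕ, (∑ n ∈ Icc 1 N with P y n, g (T^[n] x)) / (N : ℝ) ≤
        (∑ n ∈ Icc 1 N with P z n, g (T^[n] x)) / N := by
      intro y z hyz N
      apply div_le_div_of_nonneg_right _ (Nat.cast_nonneg N)
      apply sum_le_sum_of_subset_of_nonneg
      · intro n hn
        rw [mem_filter] at hn ⊢
        exact ⟨hn.1, hmono y z n hyz hn.2⟩
      · intro n _ _
        exact hg0 _
    have hc : ContinuousAt (fun z => F z * E) z := (hF.mul continuous_const).continuousAt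
    rw [tendsto_order]
    constructor
    · intro a ha
      obtain ⟨r, hr, hr'⟩ := Metric.eventually_nhds_iff.1 (hc.eventually (lt_mem_nhds ha))
      obtain ⟨q, hq1, hq2⟩ := exists_rat_btwn (show z - r < z by linarith)
      have h3 := hr' (y := (q : ℝ)) (by rw [Real.dist_eq, abs_lt]; constructor <;> linarith)
      filter_upwards [(tendsto_order.1 (hx q)).1 a h3] with N h4
      exact h4.trans_le (hm q z hq2.le N)
    · intro a ha
      obtain ⟨r, hr, hr'⟩ := Metric.eventually_nhds_iff.1 (hc.eventually (gt_mem_nhds ha))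
      obtain ⟨q, hq1, hq2⟩ := exists_rat_btwn (show z < z + r by linarith)
      have h3 := hr' (y := (q : ℝ)) (by rw [Real.dist_eq, abs_lt]; constructor <;> linarith)
      filter_upwards [(tendsto_order.1 (hx q)).2 a h3] with N h4
      exact (hm z q hq1.le N).trans_lt h4
  have hp : Integrable (fun x => max (f x) 0) m := hf.pos_part
  have hn : Integrable (fun x => max (-f x) 0) m := hf.neg_part
  have hsub : (m[(fun x => max (f x) 0) - (fun x => max (-f x) 0) | MeasurableSpace.invariants T]) =ᵐ[m]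
      (m[(fun x => max (f x) 0) | MeasurableSpace.invariants T]) -
        (m[(fun x => max (-f x) 0) | MeasurableSpace.invariants T]) := condExp_sub hp hn _
  have hfe : (fun x => max (f x) 0) - (fun x => max (-f x) 0) = f := by
    funext x
    rw [Pi.sub_apply]
    rcases le_total 0 (f x) with h | h
    · rw [max_eq_left h, max_eq_right (by linarith), sub_zero]
    · rw [max_eq_right h, max_eq_left (by linarith)]
      ring
  rw [hfe] at hsub
  filter_upwards [key _ hp (fun x => le_max_right _ _), key _ hn (fun x => le_max_right _ _), hsub]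
    with x hx1 hx2 hx3 z
  have h3 := (hx1 z).sub (hx2 z)
  rw [hx3, Pi.sub_apply, mul_sub]
  refine h3.congr fun N => ?_
  rw [← sub_div, ← sum_sub_distrib]
  congr 1
  refine sum_congr rfl fun n _ => ?_
  have := congrFun hfe (T^[n] x)
  rw [Pi.sub_apply] at this
  exact this

/-- Sets of density zero do not matter along orbits. -/
theorem zero_ergodic (hT : MeasurePreserving T m m) {f : X → ℝ} (hf : Integrable f m) {P : ℕ → Prop}
    (h : Dn P 0) [DecidablePred P] :
    ∀ᵐ x ∂m, Tendsto (fun N : ℕ => (∑ n ∈ Icc 1 N with P n, |f (T^[n] x)|) / N) atTop (𝓝 0) := by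
  classical
  have h' : Dn (fun n => P (n + 1)) 0 := by
    rw [zd_iff] at h ⊢
    intro ε hε
    obtain ⟨N₀, hN₀⟩ := eventually_atTop.1 (h (ε / 2) (by positivity))
    filter_upwards [eventually_ge_atTop (max N₀ 1)] with N hN
    have hN1 : 1 ≤ N := (le_max_right _ _).trans hN
    have h2 := hN₀ (N + 1) (((le_max_left _ _).trans hN).trans (Nat.le_succ _))
    have h3 : cnt (fun n => P (n + 1)) N ≤ cnt P (N + 1) := by
      rw [cnt_eq, cnt_eq]
      have : #{n ∈ Icc 1 N | P (n + 1)} ≤ #{n ∈ Icc 1 (N + 1) | P n} := by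
        apply card_le_card_of_injOn (fun n => n + 1)
        · intro n hn
          rw [mem_coe, mem_filter, mem_Icc] at hn ⊢
          dsimp only
          exact ⟨by omega, hn.2⟩
        · intro a _ b _ hab
          simpa using hab
      exact_mod_cast this
    have h4 : (1 : ℝ) ≤ N := by exact_mod_cast hN1
    push_cast at h2
    nlinarith
  have h2 : Dn (fun n => ¬ (P n ↔ P (n + 1))) 0 := by
    refine Pool.Agent.H499R2.ND.zd_or h h' fun n _ hn => ?_
    tauto
  filter_upwards [prop_ergodic hT hf.abs le_rfl zero_le_one h h2] with x hx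
  rw [zero_mul] at hx
  convert hx

end Pool.Agent.Q74.CE
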