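import Pool.Agent.Q74.CE.MultiFin

set_option autoImplicit false

namespace Pool.Agent.Q74.CE

open Finset Filter Topology MeasureTheory
open Pool.Agent.H499R2.ND (Td Inv)

open Classical in
/-- **Patterns with differences in an invariant set.** -/
theorem patterns (k d : ℕ) (v : Fin k → Fin d → ℤ) {s : ℤ} (hs : s = 1 ∨ s = -1) {ε : ℝ} (hε : 0 < ε) : ∃ N₀ : ℕ,
    ∀ N : ℕ, N₀ ≤ N → ∀ S : Set ℤ, Inv 1 S → ∀ δ : ℝ, ND s S δ → ∀ E : Finset (Fin d → ℤ), ∀ a : Fin d → ℤ,
      (∀ x ∈ E, ∀ j, a j ≤ x j ∧ x j < a j + N) →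
      |∑ x ∈ E, ∑ n ∈ Icc 1 N, wt s S δ n * (if (∀ i, x + (n : ℤ) • v i ∈ E) then (1 : ℝ) else 0)|
        ≤ ε * (N : ℝ) ^ (d + 1) := by
  obtain ⟨V, hV⟩ : ∃ V : ℕ, ∀ i j, |v i j| ≤ V := by
    refine ⟨∑ i, ∑ j, (v i j).natAbs, fun i j => ?_⟩
    rw [← Int.natCast_natAbs]
    have h1 : (v i j).natAbs ≤ ∑ j, (v i j).natAbs := single_le_sum (f := fun j => (v i j).natAbs) (fun _ _ => Nat.zero_le _) (mem_univ j)
    have h2 : ∑ j, (v i j).natAbs ≤ ∑ i, ∑ j, (v i j).natAbs :=
      single_le_sum (f := fun i => ∑ j, (v i j).natAbs) (fun _ _ => Nat.zero_le _) (mem_univ i)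
    exact_mod_cast h1.trans h2
  set D : ℝ := ((V : ℝ) + 2) ^ d with hD
  have hD0 : 0 < D := by positivity
  obtain ⟨N₁, h⟩ := multi_inv k hs (ε := (ε / D) ^ 2) (by positivity)
  refine ⟨max N₁ 1, fun N hN S hS δ hδ E a hE => ?_⟩
  have hN1 : 1 ≤ N := (le_max_right _ _).trans hN
  have hNr : (1 : ℝ) ≤ N := by exact_mod_cast hN1
  set M : ℕ := N * (V + 1) + 1 with hM
  have : NeZero M := ⟨by omega⟩
  -- the finite system
  let _ : MeasurableSpace (Fin d → ZMod M) := ⊤
  have : DiscreteMeasurableSpace (Fin d → ZMod M) := ⟨fun _ => trivial⟩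
  set c : ℕ := Fintype.card (Fin d → ZMod M) with hc
  have hc0 : (0 : ℝ) < c := by exact_mod_cast Fintype.card_pos
  set μ : Measure (Fin d → ZMod M) := (c : ENNReal)⁻¹ • Measure.count with hμ
  have hcne : (c : ENNReal) ≠ 0 := by exact_mod_cast (Fintype.card_ne_zero (α := Fin d → ZMod M))
  have hprob : IsProbabilityMeasure μ := by
    constructor
    rw [hμ, Measure.smul_apply, Measure.count_univ, smul_eq_mul, ENat.card_eq_coe_fintype_card]
    simp only [ENat.toENNReal_coe]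
    exact ENNReal.inv_mul_cancel hcne (ENNReal.natCast_ne_top _)
  have hint : ∀ g : (Fin d → ZMod M) → ℝ, ∫ x, g x ∂μ = (c : ℝ)⁻¹ * ∑ x, g x := by
    intro g
    rw [hμ, integral_smul_measure, integral_count]
    simp
  set w : Fin k → Fin d → ZMod M := fun i j => (v i j : ZMod M) with hw
  have hpres : ∀ u : Fin d → ZMod M, MeasurePreserving (fun x => x + u) μ μ := by
    intro u
    refine ⟨Measurable.of_discrete, ?_⟩
    ext B hB
    rw [Measure.map_apply Measurable.of_discrete hB, hμ, Measure.smul_apply, Measure.smul_apply]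
    congr 1
    rw [Measure.count_apply (MeasurableSet.of_discrete), Measure.count_apply hB]
    congr 1
    have h2 : (fun x => x + u) ⁻¹' B = (fun x => x - u) '' B := by
      ext x
      simp only [Set.mem_preimage, Set.mem_image]
      constructor
      · intro h3; exact ⟨x + u, h3, by simp⟩
      · rintro ⟨y, hy, rfl⟩; simpa using hy
    rw [h2, Function.Injective.encard_image (sub_left_injective)]
  set ι : (Fin d → ℤ) → (Fin d → ZMod M) := fun x j => (x j : ZMod M) with hι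
  set f : (Fin d → ZMod M) → ℝ := fun g => if g ∈ E.image ι then (1 : ℝ) else 0 with hf
  -- no wrap around
  have hwrap : ∀ x ∈ E, ∀ n : ℕ, n ≤ N → ∀ u : Fin d → ℤ, (∀ j, |u j| ≤ V) → ∀ y ∈ E,
      ι (x + (n : ℤ) • u) = ι y → x + (n : ℤ) • u = y := by
    intro x hx n hn u hu y hy hxy
    funext j
    have h1 := congrFun hxy j
    simp only [hι, Pi.add_apply, Pi.smul_apply, smul_eq_mul] at h1
    rw [ZMod.intCast_eq_intCast_iff_dvd_sub] at h1
    have h2 := hE x hx j
    have h3 := hE y hy j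
    have h4 : |(n : ℤ) * u j| ≤ N * V := by
      rw [abs_mul, Nat.abs_cast]
      exact mul_le_mul (by exact_mod_cast hn) (hu j) (abs_nonneg _) (by positivity)
    have h5 : |y j - (x j + (n : ℤ) * u j)| < M := by
      rw [abs_lt]
      rw [abs_le] at h4
      have : (M : ℤ) = N * V + N + 1 := by rw [hM]; push_cast; ring
      constructor <;> linarith [h2.1, h2.2, h3.1, h3.2, h4.1, h4.2]
    have h6 := Int.eq_zero_of_abs_lt_dvd h1 h5
    simp only [Pi.add_apply, Pi.smul_apply, smul_eq_mul]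
    linarith
  have hinj : Set.InjOn ι (E : Set (Fin d → ℤ)) := by
    intro x hx y hy hxy
    have := hwrap x hx 0 (Nat.zero_le _) 0 (by simp) y hy (by simpa using hxy)
    simpa using this
  have hR : ∀ i (n : ℕ) x, (fun y => y + w i)^[n] x = x + n • w i := by
    intro i n
    induction n with
    | zero => intro x; simp
    | succ n ih =>
      intro x
      rw [Function.iterate_succ_apply, ih, succ_nsmul']
      abel
  set A : (Fin d → ZMod M) → ℝ := fun g => ∑ n ∈ Icc 1 N, wt s S δ n * ∏ i, f ((fun y => y + w i)^[n] g) with hA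
  have h1 := h N ((le_max_left _ _).trans hN) S hS δ hδ (Fin d → ZMod M) μ (fun i y => y + w i) (fun i => hpres (w i))
    (fun i j x => by abel) (fun _ => f) (fun _ => Measurable.of_discrete) (fun _ x => by
      simp only [hf]; split_ifs <;> norm_num)
  have h2 : ∑ g, A g ^ 2 ≤ (ε / D) ^ 2 * N ^ 2 * c := by
    have h3 : (c : ℝ)⁻¹ * ∑ g, A g ^ 2 ≤ (ε / D) ^ 2 * N ^ 2 := by
      rw [← hint]
      exact h1
    rw [inv_mul_le_iff₀ hc0] at h3
    linarith
  have h3 : ∀ x ∈ E, A (ι x) = ∑ n ∈ Icc 1 N, wt s S δ n * (if (∀ i, x + (n : ℤ) • v i ∈ E) then (1 : ℝ) else 0) := by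
    intro x hx
    simp only [hA]
    refine sum_congr rfl fun n hn => ?_
    rw [mem_Icc] at hn
    congr 1
    have h4 : ∀ i, f ((fun y => y + w i)^[n] (ι x)) = if x + (n : ℤ) • v i ∈ E then (1 : ℝ) else 0 := by
      intro i
      rw [hR]
      have e : ι x + n • w i = ι (x + (n : ℤ) • v i) := by
        funext j
        simp [hι, hw]
      rw [e]
      simp only [hf]
      by_cases h5 : x + (n : ℤ) • v i ∈ E
      · rw [if_pos h5, if_pos (mem_image_of_mem _ h5)]
      · rw [if_neg h5, if_neg]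
        intro h6
        obtain ⟨y, hy, hxy⟩ := Finset.mem_image.1 h6
        exact h5 ((hwrap x hx n hn.2 (v i) (hV i) y hy hxy.symm) ▸ hy)
    simp only [h4]
    by_cases h5 : ∀ i, x + (n : ℤ) • v i ∈ E
    · rw [if_pos h5]
      exact prod_eq_one fun i _ => if_pos (h5 i)
    · rw [if_neg h5]
      push Not at h5
      obtain ⟨i, hi⟩ := h5
      exact prod_eq_zero (mem_univ i) (if_neg hi)
  rw [sum_congr rfl fun x hx => (h3 x hx).symm]
  have h4 : ∑ x ∈ E, A (ι x) = ∑ g ∈ E.image ι, A g := by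
    rw [sum_image]
    intro x hx y hy hxy
    exact hinj hx hy hxy
  rw [h4]
  have h5 : |∑ g ∈ E.image ι, A g| ≤ ∑ g, |A g| :=
    (abs_sum_le_sum_abs _ _).trans (sum_le_sum_of_subset_of_nonneg (subset_univ _) fun _ _ _ => abs_nonneg _)
  have h6 : (∑ g, |A g|) ^ 2 ≤ c * ∑ g, A g ^ 2 := by
    have := sq_sum_le_card_mul_sum_sq (s := (univ : Finset (Fin d → ZMod M))) (f := fun g => |A g|)
    simpa [sq_abs, hc] using this
  have h7 : ∑ g, |A g| ≤ c * (ε / D) * N := by
    apply le_of_sq_le_sq _ (by positivity)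
    refine h6.trans ?_
    calc (c : ℝ) * ∑ g, A g ^ 2 ≤ c * ((ε / D) ^ 2 * N ^ 2 * c) := mul_le_mul_of_nonneg_left h2 hc0.le
      _ = (c * (ε / D) * N) ^ 2 := by ring
  have h8 : (c : ℝ) ≤ D * N ^ d := by
    have : c = M ^ d := by rw [hc]; simp [ZMod.card]
    rw [this, hD, ← mul_pow]
    push_cast
    apply pow_le_pow_left₀ (by positivity)
    rw [hM]
    push_cast
    nlinarith
  refine h5.trans (h7.trans ?_)
  calc (c : ℝ) * (ε / D) * N ≤ (D * N ^ d) * (ε / D) * N := by gcongr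
    _ = ε * (N : ℝ) ^ (d + 1) := by rw [pow_succ]; field_simp

end Pool.Agent.Q74.CE
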