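import Pool.Agent.Q74.CE.Words
import Pool.Agent.Q74.CE.Cyc
import Mathlib.Probability.Independence.InfinitePi
import Mathlib.Probability.Independence.ZeroOne

set_option autoImplicit false

namespace Pool.Agent.Q74.CE

open Finset Filter Topology MeasureTheory ProbabilityTheory
open Pool.Agent.H499R2.ND (Td Inv)

section
variable {A : Type} [Fintype A] [MeasurableSpace A] [DiscreteMeasurableSpace A]

open Classical in
/-- the sequence selected by an invariant set is generic for the same measure -/
theorem sel {s : ℤ} (hs : s = 1 ∨ s = -1) {S : Set ℤ} (hS : Inv 1 S) {δ : ℝ} (hδ : ND s S δ) (h0 : 0 < δ)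
    {μ : Measure (ℕ → A)} [IsProbabilityMeasure μ] (hμ : Ergodic (sh (A := A)) μ) {d : ℕ → A} (hd : Gen μ d) :
    Gen μ (fun k => d (Nat.nth (fun n : ℕ => 1 ≤ n ∧ s * (n : ℤ) ∈ S) k)) := by
  intro m v
  set P : ℕ → Prop := fun n : ℕ => 1 ≤ n ∧ s * (n : ℤ) ∈ S with hP
  have hP0 : ¬ P 0 := by simp [hP]
  have hset : ∀ N : ℕ, (Icc 1 N).filter (fun n : ℕ => s * (n : ℤ) ∈ S) = (Icc 1 N).filter P := by
    intro N
    ext n
    simp only [hP, mem_filter, mem_Icc]
    tauto
  have hdens : Tendsto (fun N : ℕ => (((Icc 1 N).filter P).card : ℝ) / N) atTop (𝓝 δ) := by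
    refine ((ND_card hs).1 hδ).congr fun N => ?_
    rw [hset]
  have hinf : (Set.ofPred P).Infinite := by
    intro hfin
    have h1 : Tendsto (fun N : ℕ => (((Icc 1 N).filter P).card : ℝ) / N) atTop (𝓝 0) := by
      apply squeeze_zero (g := fun N : ℕ => (hfin.toFinset.card : ℝ) / N)
      · intro N; positivity
      · intro N
        apply div_le_div_of_nonneg_right _ (Nat.cast_nonneg N)
        exact_mod_cast card_le_card (fun n hn => by
          rw [mem_filter] at hn
          rw [Set.Finite.mem_toFinset]
          exact hn.2)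
      · exact tendsto_const_div_atTop_nhds_zero_nat _
    exact h0.ne' (tendsto_nhds_unique hdens h1)
  set a : ℕ → ℝ := fun n => if (∀ i : Fin m, d (n + i) = v i) then (1 : ℝ) else 0 with ha
  -- the occurrences of the word at the places of the set
  have h1 : Tendsto (fun K : ℕ => (∑ k ∈ range K, a (Nat.nth P k)) / K) atTop (𝓝 (μ.real (Cyl v))) := by
    apply nth_avg hP0 h0 hdens
    have h2 : Tendsto (fun N : ℕ => (∑ n ∈ Icc 1 N, a n) / N) atTop (𝓝 (μ.real (Cyl v))) := by
      apply to_Icc
      refine (hd m v).congr fun N => ?_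
      rw [ncard_range]
    have h3 := along (s := s) (S := S) (δ := δ) (a := a) (fun ε hε => by
      obtain ⟨N₀, h4⟩ := (flat hs).word hμ hd v hε
      exact ⟨N₀, fun N hN => h4 (wt s S δ) ⟨S, hS, δ, hδ, rfl⟩ N hN⟩) h2
    refine h3.congr fun N => ?_
    rw [hset]
  -- the places where the run is broken
  set e : ℕ → ℝ := fun n => if (∀ i < m, P (n + i)) then (0 : ℝ) else 1 with he
  have h2 : Tendsto (fun K : ℕ => (∑ k ∈ range K, e (Nat.nth P k)) / K) atTop (𝓝 0) := by
    apply nth_avg hP0 h0 hdens
    rw [mul_zero, Metric.tendsto_atTop]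
    intro ε hε
    obtain ⟨N₀, h3⟩ := (flat hs).win m (ε / 2) (by positivity)
    refine ⟨max N₀ 1, fun N hN => ?_⟩
    have hNp : (0 : ℝ) < N := by exact_mod_cast (le_max_right _ _).trans hN
    obtain ⟨B, hB1, hB2⟩ := h3 N ((le_max_left _ _).trans hN)
    have h4 : ∑ n ∈ (Icc 1 N).filter P, e n ≤ B.card := by
      have h5 : ∀ n ∈ (Icc 1 N).filter P, e n ≤ if n ∈ B then 1 else 0 := by
        intro n hn
        rw [mem_filter] at hn
        simp only [he]
        split_ifs with h6 h7 h7
        · norm_num
        · norm_num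
        · norm_num
        · exfalso
          apply h6
          intro i hi
          have h8 := hB2 (wt s S δ) ⟨S, hS, δ, hδ, rfl⟩ n hn.1 h7 i hi
          unfold wt at h8
          have h9 : s * (n : ℤ) ∈ S := hn.2.2
          rw [Set.indicator_of_mem h9] at h8
          refine ⟨le_trans hn.2.1 (Nat.le_add_right _ _), ?_⟩
          by_contra h10
          rw [Set.indicator_of_notMem h10] at h8
          linarith
      refine (sum_le_sum h5).trans ?_
      rw [Finset.sum_boole]
      exact_mod_cast card_le_card (fun n hn => (mem_filter.1 hn).2)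
    have h5 : 0 ≤ ∑ n ∈ (Icc 1 N).filter P, e n := by
      apply sum_nonneg
      intro n _
      simp only [he]
      split_ifs <;> norm_num
    rw [Real.dist_eq, sub_zero, abs_of_nonneg (div_nonneg h5 hNp.le), div_lt_iff₀ hNp]
    nlinarith
  -- comparison
  have hrun : ∀ k : ℕ, (∀ i < m, P (Nat.nth P k + i)) → ∀ i < m, Nat.nth P (k + i) = Nat.nth P k + i := by
    intro k hk i hi
    have h3 : ∀ j ≤ i, Nat.count P (Nat.nth P k + j) = k + j := by
      intro j
      induction j with
      | zero =>
        intro _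
        rw [add_zero, add_zero]
        exact Nat.count_nth_of_infinite hinf k
      | succ j ih =>
        intro hj
        rw [← add_assoc, Nat.count_succ, ih (by omega), if_pos (hk j (by omega))]
        ring
    have h4 := Nat.nth_count (p := P) (hk i hi)
    rw [h3 i le_rfl] at h4
    exact h4
  have h3 : Tendsto (fun K : ℕ => (∑ k ∈ range K, (if (∀ i : Fin m, d (Nat.nth P (k + i)) = v i) then (1 : ℝ) else 0)
      - ∑ k ∈ range K, a (Nat.nth P k)) / K) atTop (𝓝 0) := by
    rw [tendsto_zero_iff_norm_tendsto_zero]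
    refine squeeze_zero (fun _ => norm_nonneg _) (fun K => ?_) h2
    rw [norm_div, Real.norm_natCast]
    refine div_le_div_of_nonneg_right ?_ (Nat.cast_nonneg K)
    rw [← sum_sub_distrib]
    refine (norm_sum_le _ _).trans (sum_le_sum fun k _ => ?_)
    simp only [he, ha]
    by_cases hk : ∀ i < m, P (Nat.nth P k + i)
    · have h4 := hrun k hk
      have h5 : (∀ i : Fin m, d (Nat.nth P (k + i)) = v i) ↔ (∀ i : Fin m, d (Nat.nth P k + i) = v i) := by
        apply forall_congr'
        intro i
        rw [h4 i i.2]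
      rw [if_pos hk]
      by_cases h6 : ∀ i : Fin m, d (Nat.nth P k + i) = v i
      · rw [if_pos h6, if_pos (h5.2 h6), sub_self, norm_zero]
      · rw [if_neg h6, if_neg (fun h => h6 (h5.1 h)), sub_self, norm_zero]
    · rw [if_neg hk]
      split_ifs <;> norm_num
  have h4 := h3.add h1
  rw [zero_add] at h4
  refine h4.congr fun K => ?_
  rw [ncard_range, ← add_div]
  congr 1
  ring

end

/-! ### Bernoulli measures -/

section
variable {A : Type} [MeasurableSpace A] (ν : Measure A) [IsProbabilityMeasure ν]

theorem sh_meas : Measurable (sh (A := A)) := measurable_pi_lambda _ fun n => measurable_pi_apply (n + 1)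

theorem bern_pres : MeasurePreserving (sh (A := A)) (Measure.infinitePi fun _ : ℕ => ν)
    (Measure.infinitePi fun _ : ℕ => ν) := by
  refine ⟨sh_meas, ?_⟩
  apply Measure.eq_infinitePi
  intro s t ht
  rw [Measure.map_apply sh_meas (MeasurableSet.pi s.countable_toSet fun i _ => ht i)]
  have : sh (A := A) ⁻¹' ((s : Set ℕ).pi t) = ((s.image (· + 1) : Finset ℕ) : Set ℕ).pi (fun i => t (i - 1)) := by
    ext x
    simp [sh, Set.mem_pi]
  rw [this, Measure.infinitePi_pi _ (fun i hi => ht _), prod_image (by simp)]
  simp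

theorem bern_ergodic : Ergodic (sh (A := A)) (Measure.infinitePi fun _ : ℕ => ν) := by
  refine ⟨bern_pres ν, ⟨fun {B} hB hinv => ?_⟩⟩
  have hindep : iIndepFun (fun (i : ℕ) (x : ℕ → A) => x i) (Measure.infinitePi fun _ : ℕ => ν) :=
    iIndepFun_infinitePi (X := fun _ => id) (fun _ => measurable_id)
  have htail : MeasurableSet[limsup (fun i : ℕ => MeasurableSpace.comap (fun x : ℕ → A => x i) inferInstance) atTop] B := by
    rw [limsup_eq_iInf_iSup_of_nat, MeasurableSpace.measurableSet_iInf]
    intro n
    -- `B` is the preimage of itself under the `n`-th iterate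
    have h1 : (sh (A := A))^[n] ⁻¹' B = B := by
      induction n with
      | zero => rfl
      | succ n ih => rw [Function.iterate_succ, Set.preimage_comp, ih, hinv]
    have h2 : Measurable[⨆ i, ⨆ (_ : i ≥ n), MeasurableSpace.comap (fun x : ℕ → A => x i) inferInstance] ((sh (A := A))^[n]) := by
      refine @measurable_pi_lambda _ _ _ (_) _ _ fun k => ?_
      have e : (fun x : ℕ → A => (sh (A := A))^[n] x k) = fun x => x (k + n) := by
        funext x
        rw [sh_iter]
      rw [e]
      rw [measurable_iff_comap_le]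
      exact le_iSup₂_of_le (k + n) (by omega) le_rfl
    rw [← h1]
    exact h2 hB
  have h01 := measure_zero_or_one_of_measurableSet_limsup_atTop (fun n => (measurable_pi_apply n).comap_le) hindep htail
  rw [eventuallyConst_set']
  rcases h01 with h | h
  · left
    exact ae_eq_empty.2 h
  · right
    rw [ae_eq_univ]
    exact (prob_compl_eq_zero_iff hB).2 h

end

end Pool.Agent.Q74.CE
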