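import Mathlib

set_option autoImplicit false

namespace Pool.Agent.Q74.CE

open Finset Filter Topology

theorem tele (a : ℕ → ℝ) (N : ℕ) :
    ∑ n ∈ Icc 1 N, a n - ∑ n ∈ Icc 1 N, a (n + 1) = a 1 - a (N + 1) := by
  induction N with
  | zero => simp
  | succ N ih =>
    rw [Finset.sum_Icc_succ_top (by omega), Finset.sum_Icc_succ_top (by omega)]
    linarith

theorem shift_sum {a : ℕ → ℝ} {C : ℝ} (ha : ∀ n, |a n| ≤ C) (N j : ℕ) :
    |∑ n ∈ Icc 1 N, a n - ∑ n ∈ Icc 1 N, a (n + j)| ≤ 2 * C * j := by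
  induction j with
  | zero => simp
  | succ j ih =>
    have h1 := tele (fun n => a (n + j)) N
    have h2 : ∑ n ∈ Icc 1 N, a (n + (j + 1)) = ∑ n ∈ Icc 1 N, a (n + 1 + j) :=
      sum_congr rfl fun n _ => by rw [show n + (j + 1) = n + 1 + j by ring]
    have h3 := abs_sub (a (1 + j)) (a (N + 1 + j))
    have h4 := ha (1 + j)
    have h5 := ha (N + 1 + j)
    have h6 : |∑ n ∈ Icc 1 N, a n - ∑ n ∈ Icc 1 N, a (n + (j + 1))| ≤
        |∑ n ∈ Icc 1 N, a n - ∑ n ∈ Icc 1 N, a (n + j)| +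
          |∑ n ∈ Icc 1 N, a (n + j) - ∑ n ∈ Icc 1 N, a (n + 1 + j)| := by
      rw [h2]
      exact abs_sub_le _ _ _
    have h7 : |∑ n ∈ Icc 1 N, a (n + j) - ∑ n ∈ Icc 1 N, a (n + 1 + j)| ≤ 2 * C := by
      have : ∑ n ∈ Icc 1 N, a (n + j) - ∑ n ∈ Icc 1 N, a (n + 1 + j) = a (1 + j) - a (N + 1 + j) := h1
      rw [this]
      linarith
    push_cast
    linarith

/-- Sliding windows. -/
theorem slide {w g : ℕ → ℝ} (hw : ∀ n, |w n| ≤ 1) {C : ℝ} (hg : ∀ n, |g n| ≤ C) {N H : ℕ}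
    (hH : 1 ≤ H) (B : Finset ℕ) (hB : ∀ n ∈ Icc 1 N, n ∉ B → ∀ j < H, w (n + j) = w n) :
    |∑ n ∈ Icc 1 N, w n * g n| ≤ 2 * C * H + C * #B +
      ∑ n ∈ Icc 1 N, |(∑ j ∈ range H, g (n + j)) / H| := by
  classical
  have hC : 0 ≤ C := (abs_nonneg _).trans (hg 0)
  have hH0 : (0 : ℝ) < H := by exact_mod_cast hH
  have hwg : ∀ n, |w n * g n| ≤ C := fun n => by
    rw [abs_mul]
    calc |w n| * |g n| ≤ 1 * C := mul_le_mul (hw n) (hg n) (abs_nonneg _) zero_le_one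
      _ = C := one_mul C
  have h1 : ∀ j ∈ range H, |∑ n ∈ Icc 1 N, w n * g n - ∑ n ∈ Icc 1 N, w (n + j) * g (n + j)| ≤ 2 * C * H := by
    intro j hj
    rw [mem_range] at hj
    refine (shift_sum hwg N j).trans ?_
    have : (j : ℝ) ≤ H := by exact_mod_cast hj.le
    exact mul_le_mul_of_nonneg_left this (by positivity)
  have h2 : |(H : ℝ) * ∑ n ∈ Icc 1 N, w n * g n - ∑ j ∈ range H, ∑ n ∈ Icc 1 N, w (n + j) * g (n + j)| ≤
      H * (2 * C * H) := by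
    have : (H : ℝ) * ∑ n ∈ Icc 1 N, w n * g n - ∑ j ∈ range H, ∑ n ∈ Icc 1 N, w (n + j) * g (n + j) =
        ∑ j ∈ range H, (∑ n ∈ Icc 1 N, w n * g n - ∑ n ∈ Icc 1 N, w (n + j) * g (n + j)) := by
      rw [sum_sub_distrib, sum_const, card_range, nsmul_eq_mul]
    rw [this]
    refine (abs_sum_le_sum_abs _ _).trans ((sum_le_sum h1).trans ?_)
    rw [sum_const, card_range, nsmul_eq_mul]
  have h3 : |∑ j ∈ range H, ∑ n ∈ Icc 1 N, w (n + j) * g (n + j)| ≤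
      ∑ n ∈ Icc 1 N, |∑ j ∈ range H, g (n + j)| + H * (C * #B) := by
    rw [sum_comm]
    refine (abs_sum_le_sum_abs _ _).trans ?_
    have h4 : ∀ n ∈ Icc 1 N, |∑ j ∈ range H, w (n + j) * g (n + j)| ≤
        |∑ j ∈ range H, g (n + j)| + (if n ∈ B then (H : ℝ) * C else 0) := by
      intro n hn
      split_ifs with hb
      · have h5 : |∑ j ∈ range H, w (n + j) * g (n + j)| ≤ H * C := by
          refine (abs_sum_le_sum_abs _ _).trans ((sum_le_sum fun j _ => hwg (n + j)).trans ?_)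
          rw [sum_const, card_range, nsmul_eq_mul]
        have := abs_nonneg (∑ j ∈ range H, g (n + j))
        linarith
      · have h5 : ∑ j ∈ range H, w (n + j) * g (n + j) = w n * ∑ j ∈ range H, g (n + j) := by
          rw [mul_sum]
          refine sum_congr rfl fun j hj => ?_
          rw [hB n hn hb j (mem_range.1 hj)]
        rw [h5, abs_mul, add_zero]
        calc |w n| * |∑ j ∈ range H, g (n + j)| ≤ 1 * |∑ j ∈ range H, g (n + j)| :=
              mul_le_mul_of_nonneg_right (hw n) (abs_nonneg _)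
          _ = _ := one_mul _
    refine (sum_le_sum h4).trans ?_
    rw [sum_add_distrib]
    have h6 : ∑ n ∈ Icc 1 N, (if n ∈ B then (H : ℝ) * C else 0) ≤ H * (C * #B) := by
      rw [← sum_filter, sum_const, nsmul_eq_mul]
      have h7 : (#((Icc 1 N).filter (fun n => n ∈ B)) : ℝ) ≤ #B := by
        exact_mod_cast card_le_card (fun n hn => (mem_filter.1 hn).2)
      calc (#((Icc 1 N).filter (fun n => n ∈ B)) : ℝ) * (H * C) ≤ #B * (H * C) :=
            mul_le_mul_of_nonneg_right h7 (by positivity)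
        _ = _ := by ring
    linarith
  have h8 : (H : ℝ) * |∑ n ∈ Icc 1 N, w n * g n| ≤ H * (2 * C * H) +
      (∑ n ∈ Icc 1 N, |∑ j ∈ range H, g (n + j)| + H * (C * #B)) := by
    rw [← abs_of_pos hH0, ← abs_mul, abs_of_pos hH0]
    have := abs_sub_abs_le_abs_sub ((H : ℝ) * ∑ n ∈ Icc 1 N, w n * g n)
      (∑ j ∈ range H, ∑ n ∈ Icc 1 N, w (n + j) * g (n + j))
    linarith
  have h9 : ∑ n ∈ Icc 1 N, |(∑ j ∈ range H, g (n + j)) / H| =
      (∑ n ∈ Icc 1 N, |∑ j ∈ range H, g (n + j)|) / H := by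
    rw [sum_div]
    refine sum_congr rfl fun n _ => ?_
    rw [abs_div, abs_of_pos hH0]
  rw [h9]
  have h10 : |∑ n ∈ Icc 1 N, w n * g n| ≤ (H * (2 * C * H) +
      (∑ n ∈ Icc 1 N, |∑ j ∈ range H, g (n + j)| + H * (C * #B))) / H := by
    rw [le_div_iff₀ hH0]
    linarith
  refine h10.trans (le_of_eq ?_)
  field_simp
  ring

/-- A family of weights which are constant on most windows and have uniformly small means. -/
structure Flat (W : Set (ℕ → ℝ)) : Prop where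
  bdd : ∀ w ∈ W, ∀ n, |w n| ≤ 1
  win : ∀ H : ℕ, ∀ ε : ℝ, 0 < ε → ∃ N₀ : ℕ, ∀ N ≥ N₀, ∃ B : Finset ℕ, (#B : ℝ) ≤ ε * N ∧
    ∀ w ∈ W, ∀ n ∈ Icc 1 N, n ∉ B → ∀ j < H, w (n + j) = w n
  mean : ∀ ε : ℝ, 0 < ε → ∃ N₀ : ℕ, ∀ w ∈ W, ∀ N ≥ N₀, |∑ n ∈ Icc 1 N, w n| ≤ ε * N

/-- Bounded sequences whose means over long windows are mostly close to a constant are orthogonal to
the weights. -/
theorem Flat.orth {W : Set (ℕ → ℝ)} (hW : Flat W) {g : ℕ → ℝ} {C : ℝ} (hg : ∀ n, |g n| ≤ C) (c : ℝ)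
    (h : ∀ ε : ℝ, 0 < ε → ∃ H : ℕ, 1 ≤ H ∧ ∃ N₀ : ℕ, ∀ N ≥ N₀,
      ∑ n ∈ Icc 1 N, |(∑ j ∈ range H, g (n + j)) / H - c| ≤ ε * N) {ε : ℝ} (hε : 0 < ε) :
    ∃ N₀ : ℕ, ∀ w ∈ W, ∀ N ≥ N₀, |∑ n ∈ Icc 1 N, w n * g n| ≤ ε * N := by
  have hC : 0 ≤ C := (abs_nonneg _).trans (hg 0)
  set D : ℝ := C + |c| + 1 with hD
  have hD0 : 0 < D := by positivity
  obtain ⟨H, hH, N₁, h1⟩ := h (ε / 4) (by positivity)
  obtain ⟨N₂, h2⟩ := hW.win H (ε / (4 * D)) (by positivity)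
  obtain ⟨N₃, h3⟩ := hW.mean (ε / (4 * D)) (by positivity)
  obtain ⟨N₄, h4⟩ := exists_nat_ge (2 * D * H / (ε / 4))
  refine ⟨max (max N₁ N₂) (max N₃ N₄), fun w hw N hN => ?_⟩
  have hN1 : N₁ ≤ N := (le_max_left _ _).trans ((le_max_left _ _).trans hN)
  have hN2 : N₂ ≤ N := (le_max_right _ _).trans ((le_max_left _ _).trans hN)
  have hN3 : N₃ ≤ N := (le_max_left _ _).trans ((le_max_right _ _).trans hN)
  have hN4 : N₄ ≤ N := (le_max_right _ _).trans ((le_max_right _ _).trans hN)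
  obtain ⟨B, hB1, hB2⟩ := h2 N hN2
  have h5 := slide (w := w) (g := fun n => g n - c) (C := D) (hW.bdd w hw) (fun n => by
    have := hg n
    have h6 := abs_sub (g n) c
    linarith) (N := N) hH B (hB2 w hw)
  have h6 : ∑ n ∈ Icc 1 N, |(∑ j ∈ range H, (g (n + j) - c)) / H| =
      ∑ n ∈ Icc 1 N, |(∑ j ∈ range H, g (n + j)) / H - c| := by
    refine sum_congr rfl fun n _ => ?_
    have hH0 : (H : ℝ) ≠ 0 := by exact_mod_cast (by omega : H ≠ 0)
    rw [sum_sub_distrib, sum_const, card_range, nsmul_eq_mul, sub_div, mul_comm, mul_div_assoc, div_self hH0, mul_one]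
  rw [h6] at h5
  have h7 := h1 N hN1
  have h8 : D * #B ≤ ε / 4 * N := by
    calc D * #B ≤ D * (ε / (4 * D) * N) := mul_le_mul_of_nonneg_left hB1 hD0.le
      _ = ε / 4 * N := by field_simp
  have h9 : 2 * D * H ≤ ε / 4 * N := by
    have h10 : (N₄ : ℝ) ≤ N := by exact_mod_cast hN4
    have h11 := h4.trans h10
    rw [div_le_iff₀ (by positivity)] at h11
    linarith
  have h10 : |c| * |∑ n ∈ Icc 1 N, w n| ≤ ε / 4 * N := by
    have h11 := h3 w hw N hN3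
    calc |c| * |∑ n ∈ Icc 1 N, w n| ≤ D * (ε / (4 * D) * N) :=
          mul_le_mul (by rw [hD]; linarith) h11 (abs_nonneg _) hD0.le
      _ = ε / 4 * N := by field_simp
  have h11 : ∑ n ∈ Icc 1 N, w n * g n = ∑ n ∈ Icc 1 N, w n * (g n - c) + c * ∑ n ∈ Icc 1 N, w n := by
    rw [mul_sum, ← sum_add_distrib]
    exact sum_congr rfl fun n _ => by ring
  rw [h11]
  refine (abs_add_le _ _).trans ?_
  rw [abs_mul]
  linarith

end Pool.Agent.Q74.CE
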