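import Pool.Agent.Q74.CE.Corr
import Pool.Agent.Q74.CE.Nth
import Pool.Agent.H165R3.BPE

set_option autoImplicit false

namespace Pool.Agent.Q74.CE

open Finset Filter Topology MeasureTheory

/-- the shift -/
def sh {A : Type} (x : ℕ → A) : ℕ → A := fun n => x (n + 1)

theorem sh_iter {A : Type} (h : ℕ) (x : ℕ → A) (n : ℕ) : (sh^[h] x) n = x (n + h) := by
  induction h generalizing x with
  | zero => rfl
  | succ h ih => rw [Function.iterate_succ_apply, ih]; rw [sh, add_assoc]

section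
variable {A : Type} [Fintype A] [MeasurableSpace A] [DiscreteMeasurableSpace A]

/-- the cylinder -/
def Cyl {m : ℕ} (v : Fin m → A) : Set (ℕ → A) := {x | ∀ i : Fin m, x i = v i}

omit [Fintype A] in
theorem Cyl_meas {m : ℕ} (v : Fin m → A) : MeasurableSet (Cyl v) := by
  have : Cyl v = ⋂ i : Fin m, (fun x : ℕ → A => x i) ⁻¹' {v i} := by
    ext x
    simp [Cyl]
  rw [this]
  exact MeasurableSet.iInter fun i => (measurable_pi_apply _) (measurableSet_singleton _)

/-- the sequence `d` is generic for the measure `μ` -/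
def Gen (μ : Measure (ℕ → A)) (d : ℕ → A) : Prop :=
  ∀ (m : ℕ) (v : Fin m → A),
    Tendsto (fun N : ℕ => ({n : ℕ | n < N ∧ ∀ i : Fin m, d (n + i) = v i}.ncard : ℝ) / N) atTop
      (𝓝 (μ.real {x | ∀ i : Fin m, x i = v i}))

/-- the sums over `[0, N)` and over `[1, N]` -/
theorem to_Icc {a : ℕ → ℝ} {L : ℝ} (h : Tendsto (fun N : ℕ => (∑ n ∈ range N, a n) / N) atTop (𝓝 L)) :
    Tendsto (fun N : ℕ => (∑ n ∈ Icc 1 N, a n) / N) atTop (𝓝 L) := by
  have h4 := (tendsto_add_atTop_iff_nat 1).2 h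
  have h5 : Tendsto (fun N : ℕ => (1 : ℝ) / N) atTop (𝓝 0) := tendsto_one_div_atTop_nhds_zero_nat
  have h6 : Tendsto (fun N : ℕ => ((∑ k ∈ range (N + 1), a k) / ((N + 1 : ℕ) : ℝ)) * (1 + 1 / N)
      - a 0 * (1 / N)) atTop (𝓝 (L * (1 + 0) - a 0 * 0)) :=
    (h4.mul (h5.const_add 1)).sub (h5.const_mul _)
  rw [add_zero, mul_one, mul_zero, sub_zero] at h6
  refine h6.congr' ?_
  filter_upwards [eventually_ge_atTop 1] with N hN
  have hN0 : (N : ℝ) ≠ 0 := by exact_mod_cast (by omega : N ≠ 0)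
  have e1 : ∀ N, ∑ k ∈ range (N + 1), a k = a 0 + ∑ n ∈ Icc 1 N, a n := by
    intro N
    induction N with
    | zero => simp
    | succ N ih => rw [sum_range_succ, ih, sum_Icc_succ_top (by omega), add_assoc]
  rw [e1]
  push_cast
  field_simp
  ring

theorem ncard_range (P : ℕ → Prop) [DecidablePred P] (N : ℕ) :
    ({n : ℕ | n < N ∧ P n}.ncard : ℝ) = ∑ n ∈ range N, if P n then (1 : ℝ) else 0 := by
  rw [Finset.sum_boole, ← Set.ncard_coe_finset]
  congr 2
  ext n
  simp

open Classical in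
/-- frequencies of sets of words -/
theorem gen_set {μ : Measure (ℕ → A)} [IsProbabilityMeasure μ] {d : ℕ → A} (hd : Gen μ d) {M : ℕ}
    (E : Set (Fin M → A)) :
    Tendsto (fun N : ℕ => (∑ n ∈ Icc 1 N, if (fun i : Fin M => d (n + i)) ∈ E then (1 : ℝ) else 0) / N) atTop
      (𝓝 (μ.real {x | (fun i : Fin M => x i) ∈ E})) := by
  have h1 : ∀ u : Fin M → A, Tendsto (fun N : ℕ => (∑ n ∈ Icc 1 N,
      if (∀ i : Fin M, d (n + i) = u i) then (1 : ℝ) else 0) / N) atTop (𝓝 (μ.real (Cyl u))) := by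
    intro u
    apply to_Icc
    refine (hd M u).congr fun N => ?_
    rw [ncard_range]
  have h2 := tendsto_finsetSum (E.toFinset) fun u _ => h1 u
  have e1 : ∀ y : Fin M → A, (if y ∈ E then (1 : ℝ) else 0) =
      ∑ u ∈ E.toFinset, if (∀ i, y i = u i) then (1 : ℝ) else 0 := by
    intro y
    have : ∀ u : Fin M → A, (∀ i, y i = u i) ↔ y = u := fun u => funext_iff.symm
    simp only [this]
    rw [Finset.sum_ite_eq]
    simp
  have e2 : μ.real {x | (fun i : Fin M => x i) ∈ E} = ∑ u ∈ E.toFinset, μ.real (Cyl u) := by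
    have : {x : ℕ → A | (fun i : Fin M => x i) ∈ E} = ⋃ u ∈ E.toFinset, Cyl u := by
      ext x
      simp only [Set.mem_ofPred_eq, Set.mem_iUnion, Set.mem_toFinset, exists_prop, Cyl]
      constructor
      · intro h
        exact ⟨_, h, fun i => rfl⟩
      · rintro ⟨u, hu, hx⟩
        have : (fun i : Fin M => x i) = u := funext hx
        rwa [this]
    rw [this, measureReal_biUnion_finset]
    · intro u _ v _ huv
      rw [Function.onFun, Set.disjoint_left]
      intro x hx hx'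
      exact huv (funext fun i => (hx i).symm.trans (hx' i))
    · intro u _
      exact Cyl_meas u
  rw [e2]
  refine h2.congr fun N => ?_
  rw [← sum_div, sum_comm]
  congr 1
  refine sum_congr rfl fun n _ => ?_
  rw [e1]

/-- the mean ergodic theorem for one set -/
theorem erg_mean {μ : Measure (ℕ → A)} [IsProbabilityMeasure μ] (hμ : Ergodic (sh (A := A)) μ) {V : Set (ℕ → A)}
    (hV : MeasurableSet V) :
    Tendsto (fun H : ℕ => (∑ h ∈ range H, μ.real (V ∩ (sh (A := A))^[h] ⁻¹' V)) / H) atTop (𝓝 (μ.real V ^ 2)) := by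
  classical
  set f : (ℕ → A) → ℝ := V.indicator (fun _ => 1) with hf
  have hfm : Measurable f := measurable_const.indicator hV
  have hfb : ∀ x, |f x| ≤ 1 := by
    intro x
    simp only [hf, Set.indicator]
    split_ifs <;> simp
  have hle := MeasurableSpace.invariants_le (sh (A := A))
  have hfi : Integrable f μ := Integrable.of_bound hfm.aestronglyMeasurable 1 (Eventually.of_forall hfb)
  set L := μ[f | MeasurableSpace.invariants (sh (A := A))] with hL
  have hLm : Measurable[MeasurableSpace.invariants (sh (A := A))] L := stronglyMeasurable_condExp.measurable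
  have hLT : L ∘ (sh (A := A)) = L := MeasurableSpace.comp_eq_of_measurable_invariants hLm
  obtain ⟨c, hc⟩ := hμ.toPreErgodic.ae_eq_const_of_ae_eq_comp (hLm.mono hle le_rfl) hLT
  have hc2 : c = μ.real V := by
    have h1 : ∫ x, L x ∂μ = ∫ x, f x ∂μ := integral_condExp hle
    have h2 : ∫ x, L x ∂μ = c := by
      rw [integral_congr_ae hc]
      simp
    have h3 : ∫ x, f x ∂μ = μ.real V := by
      rw [hf, integral_indicator_const _ hV, smul_eq_mul, mul_one]
    rw [← h2, h1, h3]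
  have hb := Pool.Agent.H165R3.BPE.birkhoff hμ.toMeasurePreserving f hfm 1 hfb
  have h1 : Tendsto (fun H : ℕ => ∫ x, f x * ((H : ℝ)⁻¹ * ∑ k ∈ range H, f ((sh (A := A))^[k] x)) ∂μ) atTop
      (𝓝 (∫ x, f x * c ∂μ)) := by
    apply tendsto_integral_of_dominated_convergence (fun _ => 1)
    · intro H
      exact (hfm.mul (measurable_const.mul (Finset.measurable_sum _ fun k _ =>
        hfm.comp (hμ.toMeasurePreserving.measurable.iterate k)))).aestronglyMeasurable
    · exact integrable_const _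
    · intro H
      filter_upwards with x
      rw [Real.norm_eq_abs, abs_mul, abs_mul]
      have h2 : |∑ k ∈ range H, f ((sh (A := A))^[k] x)| ≤ H := by
        refine (abs_sum_le_sum_abs _ _).trans ((sum_le_sum fun j _ => hfb _).trans ?_)
        simp
      rcases Nat.eq_zero_or_pos H with rfl | hH
      · simp
      have hH0 : (0 : ℝ) < H := by exact_mod_cast hH
      have h3 : |(H : ℝ)⁻¹| * |∑ k ∈ range H, f ((sh (A := A))^[k] x)| ≤ 1 := by
        rw [abs_of_pos (inv_pos.2 hH0), inv_mul_le_iff₀ hH0, mul_one]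
        exact h2
      calc |f x| * (|(H : ℝ)⁻¹| * |∑ k ∈ range H, f ((sh (A := A))^[k] x)|) ≤ 1 * 1 :=
            mul_le_mul (hfb x) h3 (by positivity) zero_le_one
        _ = 1 := one_mul 1
    · filter_upwards [hb, hc] with x hx hx2
      have : (μ[f | MeasurableSpace.invariants (sh (A := A))]) x = c := hx2
      rw [this] at hx
      exact hx.const_mul _
  have h2 : ∫ x, f x * c ∂μ = μ.real V ^ 2 := by
    rw [integral_mul_const, hf, integral_indicator_const _ hV, smul_eq_mul, mul_one, hc2, sq]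
  rw [h2] at h1
  refine h1.congr fun H => ?_
  have h3 : ∀ x, f x * ((H : ℝ)⁻¹ * ∑ k ∈ range H, f ((sh (A := A))^[k] x)) =
      (∑ k ∈ range H, (V ∩ (sh (A := A))^[k] ⁻¹' V).indicator (fun _ => (1 : ℝ)) x) * (H : ℝ)⁻¹ := by
    intro x
    rw [mul_left_comm, mul_comm, mul_sum]
    congr 1
    refine sum_congr rfl fun k _ => ?_
    simp only [hf, Set.indicator, Set.mem_inter_iff, Set.mem_preimage]
    by_cases h4 : x ∈ V <;> by_cases h5 : (sh (A := A))^[k] x ∈ V <;> simp [h4, h5]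
  simp only [h3]
  rw [integral_mul_const, integral_finsetSum, div_eq_mul_inv]
  · congr 1
    refine sum_congr rfl fun k _ => ?_
    rw [integral_indicator_const _ (hV.inter ((hμ.toMeasurePreserving.measurable.iterate k) hV)), smul_eq_mul, mul_one]
  · intro k _
    exact (integrable_const _).indicator (hV.inter ((hμ.toMeasurePreserving.measurable.iterate k) hV))

open Classical in
/-- the occurrences of a word in a generic sequence are orthogonal to the weights -/
theorem Flat.word {W : Set (ℕ → ℝ)} (hW : Flat W) {μ : Measure (ℕ → A)} [IsProbabilityMeasure μ]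
    (hμ : Ergodic (sh (A := A)) μ) {d : ℕ → A} (hd : Gen μ d) {m : ℕ} (v : Fin m → A) {ε : ℝ} (hε : 0 < ε) :
    ∃ N₀ : ℕ, ∀ w ∈ W, ∀ N ≥ N₀,
      |∑ n ∈ Icc 1 N, w n * (if (∀ i : Fin m, d (n + i) = v i) then (1 : ℝ) else 0)| ≤ ε * N := by
  set p : ℝ := μ.real (Cyl v) with hp
  have hp0 : 0 ≤ p := measureReal_nonneg
  have hp1 : p ≤ 1 := measureReal_le_one
  set a : ℕ → ℝ := fun n => if (∀ i : Fin m, d (n + i) = v i) then (1 : ℝ) else 0 with ha
  set g : ℕ → ℂ := fun n => ((a n - p : ℝ) : ℂ) with hg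
  set q : ℕ → ℝ := fun h => μ.real (Cyl v ∩ (sh (A := A))^[h] ⁻¹' (Cyl v)) with hq
  have ha01 : ∀ n, 0 ≤ a n ∧ a n ≤ 1 := by
    intro n
    simp only [ha]
    split_ifs <;> simp
  have hgb : ∀ n, ‖g n‖ ≤ 1 := by
    intro n
    rw [hg, Complex.norm_real, Real.norm_eq_abs, abs_le]
    have := ha01 n
    constructor <;> linarith
  -- mean of a
  have hmean : Tendsto (fun N : ℕ => (∑ n ∈ Icc 1 N, a n) / N) atTop (𝓝 p) := by
    apply to_Icc
    refine (hd m v).congr fun N => ?_
    rw [ncard_range]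
  -- joint frequencies
  have hjoint : ∀ h : ℕ, Tendsto (fun N : ℕ => (∑ n ∈ Icc 1 N, a (n + h) * a n) / N) atTop (𝓝 (q h)) := by
    intro h
    have h1 := gen_set hd (M := m + h) {u | (∀ i : Fin m, u ⟨i, by omega⟩ = v i) ∧ ∀ i : Fin m, u ⟨i + h, by omega⟩ = v i}
    have e2 : {x : ℕ → A | (fun i : Fin (m + h) => x i) ∈ {u : Fin (m + h) → A | (∀ i : Fin m, u ⟨i, by omega⟩ = v i) ∧
        ∀ i : Fin m, u ⟨i + h, by omega⟩ = v i}} = Cyl v ∩ (sh (A := A))^[h] ⁻¹' (Cyl v) := by
      ext x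
      simp only [Set.mem_ofPred_eq, Set.mem_inter_iff, Set.mem_preimage, Cyl, sh_iter]
    rw [e2] at h1
    refine h1.congr fun N => ?_
    congr 1
    refine sum_congr rfl fun n _ => ?_
    simp only [ha, Set.mem_ofPred_eq]
    have e3 : (∀ i : Fin m, d (n + (i + h : ℕ)) = v i) ↔ ∀ i : Fin m, d (n + h + i) = v i := by
      apply forall_congr'
      intro i
      rw [show n + (↑i + h) = n + h + ↑i by ring]
    by_cases h4 : ∀ i : Fin m, d (n + i) = v i
    · by_cases h5 : ∀ i : Fin m, d (n + h + i) = v i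
      · rw [if_pos ⟨h4, e3.2 h5⟩, if_pos h4, if_pos h5, mul_one]
      · rw [if_neg (fun h6 => h5 (e3.1 h6.2)), if_neg h5, zero_mul]
    · rw [if_neg (fun h6 => h4 h6.1), if_neg h4, mul_zero]
  -- shifts of the mean
  have hshift : ∀ h : ℕ, Tendsto (fun N : ℕ => (∑ n ∈ Icc 1 N, a (n + h)) / N) atTop (𝓝 p) := by
    intro h
    have h1 : Tendsto (fun N : ℕ => (∑ n ∈ Icc 1 N, a n - ∑ n ∈ Icc 1 N, a (n + h)) / (N : ℝ)) atTop (𝓝 0) := by
      rw [tendsto_zero_iff_norm_tendsto_zero]
      have h2 : Tendsto (fun N : ℕ => (2 * 1 * (h : ℝ)) / (N : ℝ)) atTop (𝓝 0) := tendsto_const_div_atTop_nhds_zero_nat _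
      refine squeeze_zero (fun _ => norm_nonneg _) (fun N => ?_) h2
      rw [norm_div, Real.norm_natCast]
      refine div_le_div_of_nonneg_right ?_ (Nat.cast_nonneg N)
      refine shift_sumE (fun n => ?_) N h
      rw [Real.norm_eq_abs, abs_of_nonneg (ha01 n).1]
      exact (ha01 n).2
    have h2 := hmean.sub h1
    rw [sub_zero] at h2
    refine h2.congr fun N => ?_
    rw [← sub_div]
    congr 1
    ring
  have hcorr : HasCorr g (fun h => ((q h - p ^ 2 : ℝ) : ℂ)) := by
    intro h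
    have h1 : Tendsto (fun N : ℕ => (∑ n ∈ Icc 1 N, (a (n + h) - p) * (a n - p)) / N) atTop (𝓝 (q h - p ^ 2)) := by
      have h2 := (((hjoint h).sub ((hshift h).const_mul p)).sub (hmean.const_mul p)).add_const (p ^ 2)
      have e : q h - p * p - p * p + p ^ 2 = q h - p ^ 2 := by ring
      rw [e] at h2
      refine h2.congr' ?_
      filter_upwards [eventually_ge_atTop 1] with N hN
      have hN0 : (N : ℝ) ≠ 0 := by exact_mod_cast (by omega : N ≠ 0)
      have h3 : ∑ n ∈ Icc 1 N, (a (n + h) - p) * (a n - p) = ∑ n ∈ Icc 1 N, a (n + h) * a n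
          - p * ∑ n ∈ Icc 1 N, a (n + h) - p * ∑ n ∈ Icc 1 N, a n + p ^ 2 * N := by
        have h4 : ∑ n ∈ Icc 1 N, p ^ 2 = p ^ 2 * N := by
          rw [sum_const, Nat.card_Icc, Nat.add_sub_cancel, nsmul_eq_mul, mul_comm]
        rw [← h4, mul_sum, mul_sum, ← sum_sub_distrib, ← sum_sub_distrib, ← sum_add_distrib]
        exact sum_congr rfl fun n _ => by ring
      rw [h3]
      field_simp
    have h2 := (Complex.continuous_ofReal.tendsto _).comp h1
    refine h2.congr fun N => ?_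
    simp only [Function.comp, hg, Complex.conj_ofReal]
    push_cast
    rfl
  have hces : Tendsto (fun H : ℕ => (∑ h ∈ range H, ((q h - p ^ 2 : ℝ) : ℂ)) / H) atTop (𝓝 0) := by
    have h1 := (erg_mean hμ (Cyl_meas v)).sub_const (p ^ 2)
    rw [← hp, sub_self] at h1
    have h2 := (Complex.continuous_ofReal.tendsto _).comp h1
    rw [Complex.ofReal_zero] at h2
    refine h2.congr' ?_
    filter_upwards [eventually_ge_atTop 1] with H hH
    have hH0 : (H : ℂ) ≠ 0 := by exact_mod_cast (by omega : H ≠ 0)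
    simp only [Function.comp, hq]
    rw [← Complex.ofReal_sum, sum_sub_distrib, sum_const, card_range, nsmul_eq_mul]
    push_cast
    field_simp
  obtain ⟨N₁, h1⟩ := hW.corr hgb hcorr hces (ε := ε / 2) (by positivity)
  obtain ⟨N₂, h2⟩ := hW.mean (ε / 2) (by positivity)
  refine ⟨max N₁ N₂, fun w hw N hN => ?_⟩
  have h3 := h1 w hw N ((le_max_left _ _).trans hN)
  have h4 := h2 w hw N ((le_max_right _ _).trans hN)
  have h5 : ∑ n ∈ Icc 1 N, w n • g n = ((∑ n ∈ Icc 1 N, w n * (a n - p) : ℝ) : ℂ) := by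
    rw [Complex.ofReal_sum]
    refine sum_congr rfl fun n _ => ?_
    rw [hg]
    rw [Complex.real_smul]
    push_cast
    rfl
  rw [h5, Complex.norm_real, Real.norm_eq_abs] at h3
  have h6 : ∑ n ∈ Icc 1 N, w n * a n = ∑ n ∈ Icc 1 N, w n * (a n - p) + p * ∑ n ∈ Icc 1 N, w n := by
    rw [mul_sum, ← sum_add_distrib]
    exact sum_congr rfl fun n _ => by ring
  have h7 : |p * ∑ n ∈ Icc 1 N, w n| ≤ ε / 2 * N := by
    rw [abs_mul, abs_of_nonneg hp0]
    calc p * |∑ n ∈ Icc 1 N, w n| ≤ 1 * (ε / 2 * N) := mul_le_mul hp1 h4 (abs_nonneg _) zero_le_one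
      _ = _ := one_mul _
  change |∑ n ∈ Icc 1 N, w n * a n| ≤ ε * N
  rw [h6]
  refine (abs_add_le _ _).trans ?_
  linarith

end

end Pool.Agent.Q74.CE
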